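import Mathlib

/-! Nim with a single pass: definitions, Bouton's theorem, and the basic recursion. -/

namespace Pool.Agent.NimPass

/-- Moves of Nim with a single pass on `n` heaps. A position `(h, e)` consists of the heap sizes
`h` and of a Boolean `e` telling whether the pass is still available. -/
inductive Move {n : ℕ} : (Fin n → ℕ) × Bool → (Fin n → ℕ) × Bool → Prop
  | nim (h : Fin n → ℕ) (e : Bool) (i : Fin n) (v : ℕ) (hv : v < h i) :
      Move (h, e) (Function.update h i v, e)
  | pass (h : Fin n → ℕ) (hne : ∃ i, h i ≠ 0) : Move (h, true) (h, false)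

mutual
/-- The player to move loses: every move leads to a position in which the next player wins. -/
inductive PPos {n : ℕ} : (Fin n → ℕ) × Bool → Prop
  | mk (p : (Fin n → ℕ) × Bool) (hp : ∀ q, Move p q → NPos q) : PPos p
/-- The player to move wins: some move leads to a position in which the next player loses. -/
inductive NPos {n : ℕ} : (Fin n → ℕ) × Bool → Prop
  | mk (p q : (Fin n → ℕ) × Bool) (hm : Move p q) (hq : PPos q) : NPos p
end

instance xorComm : Std.Commutative (fun x y : ℕ => x ^^^ y) := ⟨Nat.xor_comm⟩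

instance xorAssoc : Std.Associative (fun x y : ℕ => x ^^^ y) := ⟨Nat.xor_assoc⟩

/-- Nim-sum (bitwise addition mod 2) of the heap sizes with index in `s`. -/
def nimSumOn {n : ℕ} (s : Finset (Fin n)) (h : Fin n → ℕ) : ℕ :=
  s.fold (fun x y : ℕ => x ^^^ y) 0 h

/-- Nim-sum (bitwise addition mod 2) of the heap sizes. -/
def nimSum {n : ℕ} (h : Fin n → ℕ) : ℕ := nimSumOn Finset.univ h

theorem nimSumOn_empty {n : ℕ} (h : Fin n → ℕ) : nimSumOn ∅ h = 0 := rfl

theorem nimSumOn_insert {n : ℕ} {s : Finset (Fin n)} {a : Fin n} (ha : a ∉ s) (h : Fin n → ℕ) :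
    nimSumOn (insert a s) h = h a ^^^ nimSumOn s h := Finset.fold_insert ha

/-- The size of a position, decreasing along moves. -/
def msr {n : ℕ} (p : (Fin n → ℕ) × Bool) : ℕ := (∑ i, p.1 i) + (if p.2 then 1 else 0)

theorem sum_update_lt {n : ℕ} (h : Fin n → ℕ) (i : Fin n) (v : ℕ) (hv : v < h i) :
    ∑ j, Function.update h i v j < ∑ j, h j := by
  apply Finset.sum_lt_sum
  · intro j _
    by_cases hj : j = i
    · subst hj; simp; omega
    · simp [Function.update_of_ne hj]
  · exact ⟨i, Finset.mem_univ i, by simpa using hv⟩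

theorem Move.lt {n : ℕ} {p q : (Fin n → ℕ) × Bool} (h : Move p q) : msr q < msr p := by
  cases h with
  | nim h e i v hv =>
    have := sum_update_lt h i v hv
    simp only [msr]; omega
  | pass h hne => simp [msr]

theorem not_both {n : ℕ} : ∀ (k : ℕ) (p : (Fin n → ℕ) × Bool), msr p ≤ k →
    ¬ (PPos p ∧ NPos p) := by
  intro k
  induction k with
  | zero =>
    rintro p hk ⟨hp, hn⟩
    cases hn with
    | mk _ q hm hq => have := hm.lt; omega
  | succ k ih =>
    rintro p hk ⟨hp, hn⟩
    cases hn with
    | mk _ q hm hq =>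
      cases hp with
      | mk _ hp => exact ih q (by have := hm.lt; omega) ⟨hq, hp q hm⟩

theorem either {n : ℕ} : ∀ (k : ℕ) (p : (Fin n → ℕ) × Bool), msr p ≤ k →
    (PPos p ∨ NPos p) := by
  intro k
  induction k with
  | zero =>
    intro p hk
    left
    refine PPos.mk p ?_
    intro q hm
    have := hm.lt; omega
  | succ k ih =>
    intro p hk
    by_cases h : ∃ q, Move p q ∧ PPos q
    · obtain ⟨q, hm, hq⟩ := h
      exact Or.inr (NPos.mk p q hm hq)
    · left
      refine PPos.mk p ?_
      intro q hm
      rcases ih q (by have := hm.lt; omega) with h1 | h1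
      · exact absurd ⟨q, hm, h1⟩ h
      · exact h1

theorem npos_iff {n : ℕ} (p : (Fin n → ℕ) × Bool) : NPos p ↔ ¬ PPos p := by
  constructor
  · intro h1 h2; exact not_both _ p le_rfl ⟨h2, h1⟩
  · intro h1
    rcases either _ p le_rfl with h | h
    · exact absurd h h1
    · exact h

theorem ppos_iff {n : ℕ} (p : (Fin n → ℕ) × Bool) : PPos p ↔ ∀ q, Move p q → ¬ PPos q := by
  constructor
  · intro h q hm
    cases h with
    | mk _ hp => exact (npos_iff q).1 (hp q hm)
  · intro h
    exact PPos.mk p (fun q hm => (npos_iff q).2 (h q hm))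

theorem fold_update {n : ℕ} (s : Finset (Fin n)) (h : Fin n → ℕ) (i : Fin n) (v : ℕ) :
    nimSumOn s (Function.update h i v) =
      if i ∈ s then (nimSumOn s h) ^^^ h i ^^^ v else nimSumOn s h := by
  induction s using Finset.induction_on with
  | empty => simp [nimSumOn_empty]
  | insert a s ha ih =>
    rw [nimSumOn_insert ha, nimSumOn_insert ha, ih]
    by_cases hia : i = a
    · subst hia
      simp only [ha, if_false, Finset.mem_insert_self, if_true, Function.update_self]
      have : h i ^^^ nimSumOn s h ^^^ h i ^^^ v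
        = (h i ^^^ h i) ^^^ (v ^^^ nimSumOn s h) := by
        ac_rfl
      rw [this]; simp
    · have h1 : Function.update h i v a = h a := Function.update_of_ne (Ne.symm hia) _ _
      rw [h1]
      by_cases his : i ∈ s
      · simp only [his, if_true, Finset.mem_insert, or_true]
        ac_rfl
      · simp [his, hia]

theorem nimSum_update {n : ℕ} (h : Fin n → ℕ) (i : Fin n) (v : ℕ) :
    nimSum (Function.update h i v) = nimSum h ^^^ h i ^^^ v := by
  unfold nimSum
  rw [fold_update]; simp

theorem fold_exists {n : ℕ} (h : Fin n → ℕ) (s : Finset (Fin n)) : ∀ a : ℕ,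
    a < nimSumOn s h → ∃ i ∈ s, a ^^^ nimSumOn s h ^^^ h i < h i := by
  induction s using Finset.induction_on with
  | empty => intro a ha; simp [nimSumOn_empty] at ha
  | insert j s hj ih =>
    intro a ha
    rw [nimSumOn_insert hj] at ha ⊢
    rcases Nat.lt_xor_cases ha with h1 | h1
    · refine ⟨j, Finset.mem_insert_self _ _, ?_⟩
      have : a ^^^ (h j ^^^ nimSumOn s h) ^^^ h j
        = (h j ^^^ h j) ^^^ (a ^^^ nimSumOn s h) := by ac_rfl
      rw [this]; simpa using h1
    · obtain ⟨i, hi, h2⟩ := ih _ h1
      refine ⟨i, Finset.mem_insert_of_mem hi, ?_⟩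
      have : a ^^^ (h j ^^^ nimSumOn s h) ^^^ h i
        = a ^^^ h j ^^^ nimSumOn s h ^^^ h i := by ac_rfl
      rw [this]; exact h2

theorem nimSum_move {n : ℕ} (h : Fin n → ℕ) (a : ℕ) (ha : a < nimSum h) :
    ∃ (i : Fin n) (v : ℕ), v < h i ∧ v = a ^^^ nimSum h ^^^ h i ∧
      nimSum (Function.update h i v) = a := by
  obtain ⟨i, -, hi⟩ := fold_exists h Finset.univ a ha
  change a ^^^ nimSum h ^^^ h i < h i at hi
  refine ⟨i, a ^^^ nimSum h ^^^ h i, hi, rfl, ?_⟩
  rw [nimSum_update]
  have : nimSum h ^^^ h i ^^^ (a ^^^ nimSum h ^^^ h i) = (nimSum h ^^^ nimSum h) ^^^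
    ((h i ^^^ h i) ^^^ a) := by ac_rfl
  rw [this]; simp

theorem nimSum_zero {n : ℕ} : nimSum (fun _ : Fin n => 0) = 0 := by
  unfold nimSum
  induction (Finset.univ : Finset (Fin n)) using Finset.induction_on with
  | empty => rfl
  | insert a s ha ih => rw [nimSumOn_insert ha, ih]; rfl

/-- Bouton's theorem. -/
theorem bouton {n : ℕ} (h : Fin n → ℕ) : PPos (h, false) ↔ nimSum h = 0 := by
  induction hk : (∑ i, h i) using Nat.strong_induction_on generalizing h with
  | _ k ih =>
    rw [ppos_iff]
    constructor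
    · intro H
      by_contra hne
      obtain ⟨i, v, hv, -, hs⟩ := nimSum_move h 0 (Nat.pos_of_ne_zero hne)
      apply H _ (Move.nim h false i v hv)
      rw [ih (∑ j, Function.update h i v j) (by rw [← hk]; exact sum_update_lt h i v hv) _ rfl]
      exact hs
    · intro hs q hm
      generalize hp : (h, false) = p at hm
      cases hm with
      | nim h' e i v hv =>
        simp only [Prod.mk.injEq] at hp
        obtain ⟨rfl, rfl⟩ := hp
        rw [ih (∑ j, Function.update h i v j) (by rw [← hk]; exact sum_update_lt h i v hv) _ rfl]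
        rw [nimSum_update, hs]
        simp only [Nat.zero_xor]
        intro h0
        have : h i = v := Nat.xor_eq_zero_iff.1 h0
        omega
      | pass h' hne =>
        simp at hp

/-- The basic recursion for positions with the pass available. -/
theorem ppos_true {n : ℕ} (h : Fin n → ℕ) : PPos (h, true) ↔
    ((∃ i, h i ≠ 0) → nimSum h ≠ 0) ∧ ∀ i v, v < h i → ¬ PPos (Function.update h i v, true) := by
  rw [ppos_iff]
  constructor
  · intro H
    refine ⟨fun hne hs => H _ (Move.pass h hne) ((bouton h).2 hs), fun i v hv =>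
      H _ (Move.nim h true i v hv)⟩
  · rintro ⟨H1, H2⟩ q hm
    generalize hp : (h, true) = p at hm
    cases hm with
    | nim h' e i v hv =>
      simp only [Prod.mk.injEq] at hp
      obtain ⟨rfl, rfl⟩ := hp
      exact H2 i v hv
    | pass h' hne =>
      simp only [Prod.mk.injEq, and_true] at hp
      subst hp
      rw [bouton]
      exact H1 hne

end Pool.Agent.NimPass
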