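import Pool.Agent.NimPass.Q5RecA

/-! The recursion for the explicit predicate, for all arguments. -/

namespace Pool.Agent.NimPass

/-- The numbers of odd heaps for which there is no exceptional position. -/
def Plain (a c e : ℕ) : Prop :=
  ¬ (a = 0 ∧ c = 0 ∧ e = 0) ∧ ¬ (a = 1 ∧ c = 0 ∧ e = 0) ∧ ¬ (a = 0 ∧ c = 1 ∧ e = 0) ∧
  ¬ (a = 0 ∧ c = 0 ∧ e = 1) ∧ ¬ (a = 0 ∧ c = 0 ∧ e = 2) ∧ ¬ (a = 0 ∧ c = 1 ∧ e = 1) ∧
  ¬ (a = 0 ∧ c = 0 ∧ e = 3) ∧ ¬ (a = 0 ∧ c = 1 ∧ e = 2) ∧ ¬ (a = 0 ∧ c = 1 ∧ e = 3)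

instance (a c e : ℕ) : Decidable (Plain a c e) := by unfold Plain; infer_instance

theorem plain_of_large {a c e : ℕ} (h : 5 ≤ a + c + e) : Plain a c e := by
  unfold Plain; omega

/-- the neighbours -/
def PlainNb (a c e : ℕ) : Prop :=
  Plain a c e ∧ (1 ≤ a → Plain (a - 1) c e) ∧ Plain (a + 1) c e ∧
  (1 ≤ c → Plain a (c - 1) e) ∧ (1 ≤ c → Plain (a + 1) (c - 1) e) ∧ Plain a (c + 1) e ∧
  (1 ≤ e → Plain a c (e - 1)) ∧ (1 ≤ e → Plain (a + 1) c (e - 1)) ∧
  (1 ≤ e → Plain a (c + 1) (e - 1))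

instance (a c e : ℕ) : Decidable (PlainNb a c e) := by unfold PlainNb; infer_instance

theorem plainNb_small : ∀ a c e : Fin 6,
    ((a : ℕ), (c : ℕ), (e : ℕ)) ∈ oddList ∨ PlainNb (a : ℕ) (c : ℕ) (e : ℕ) := by
  decide +kernel

theorem plainNb {a c e : ℕ} (ht : (a, c, e) ∉ oddList) : PlainNb a c e := by
  by_cases h : a + c + e ≤ 5
  · have := plainNb_small ⟨a, by omega⟩ ⟨c, by omega⟩ ⟨e, by omega⟩
    exact this.resolve_left ht
  · unfold PlainNb
    refine ⟨plain_of_large (by omega), fun h => plain_of_large (by omega),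
      plain_of_large (by omega), fun h => plain_of_large (by omega),
      fun h => plain_of_large (by omega), plain_of_large (by omega),
      fun h => plain_of_large (by omega), fun h => plain_of_large (by omega),
      fun h => plain_of_large (by omega)⟩

theorem Q5_plain {a c e : ℕ} (h : Plain a c e) (b d : ℕ) :
    Q5 a b c d e ↔ Rule5 a b c d e := by
  obtain ⟨h1, h2, h3, h4, h5, h6, h7, h8, h9⟩ := h
  have h9' : ¬ (a = 0 ∧ c = 1 ∧ e = 3 ∧ b = 0 ∧ d = 0) := fun h => h9 ⟨h.1, h.2.1, h.2.2.1⟩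
  unfold Q5
  rw [if_neg h1, if_neg h2, if_neg h3, if_neg h4, if_neg h5, if_neg h6, if_neg h7, if_neg h8,
    if_neg h9']

theorem rule_rec (a b c d e : ℕ) (h0 : a + b + c + d + e ≠ 0) :
    Rule5 a b c d e ↔ Rec5 Rule5 a b c d e := by
  unfold Rec5
  constructor
  · rintro ⟨h1, h2, h3⟩
    refine ⟨?_, ?_, ?_, ?_, ?_, ?_⟩
    · intro _; omega
    · rintro h ⟨g1, g2, g3⟩; omega
    · intro h
      refine ⟨?_, ?_⟩ <;> rintro ⟨g1, g2, g3⟩ <;> omega
    · intro h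
      refine ⟨?_, ?_, ?_⟩ <;> rintro ⟨g1, g2, g3⟩ <;> omega
    · intro h
      refine ⟨?_, ?_, ?_, ?_⟩ <;> rintro ⟨g1, g2, g3⟩ <;> omega
    · intro h
      refine ⟨?_, ?_, ?_, ?_, ?_⟩ <;> rintro ⟨g1, g2, g3⟩ <;> omega
  · rintro ⟨hn, ha, hb, hc, hd, he⟩
    have hn := hn h0
    rcases Nat.mod_two_eq_zero_or_one (d + e) with hde | hde
    · rcases Nat.mod_two_eq_zero_or_one (b + c) with hbc | hbc
      · rcases Nat.mod_two_eq_zero_or_one (a + c + e) with hac | hac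
        · exact absurd ⟨hac, hbc, hde⟩ hn
        · exact ⟨hac, hbc, hde⟩
      · exfalso
        rcases Nat.eq_zero_or_pos b with hb0 | hb1
        · have hc1 : 1 ≤ c := by omega
          obtain ⟨g1, g2, -⟩ := hc hc1
          rcases Nat.mod_two_eq_zero_or_one (a + c + e) with hac | hac
          · apply g1
            refine ⟨?_, ?_, hde⟩ <;> omega
          · apply g2
            refine ⟨?_, ?_, hde⟩ <;> omega
        · obtain ⟨g1, g2⟩ := hb hb1
          rcases Nat.mod_two_eq_zero_or_one (a + c + e) with hac | hac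
          · apply g2
            refine ⟨?_, ?_, hde⟩ <;> omega
          · apply g1
            refine ⟨?_, ?_, hde⟩ <;> omega
    · exfalso
      rcases Nat.eq_zero_or_pos d with hd0 | hd1
      · have he1 : 1 ≤ e := by omega
        obtain ⟨g1, g2, g3, g4, g5⟩ := he he1
        rcases Nat.mod_two_eq_zero_or_one (b + c) with hbc | hbc
        · rcases Nat.mod_two_eq_zero_or_one (a + c + e) with hac | hac
          · apply g1
            refine ⟨?_, hbc, ?_⟩ <;> omega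
          · apply g2
            refine ⟨?_, hbc, ?_⟩ <;> omega
        · rcases Nat.mod_two_eq_zero_or_one (a + c + e) with hac | hac
          · apply g3
            refine ⟨?_, ?_, ?_⟩ <;> omega
          · apply g4
            refine ⟨?_, ?_, ?_⟩ <;> omega
      · obtain ⟨g1, g2, g3, g4⟩ := hd hd1
        rcases Nat.mod_two_eq_zero_or_one (b + c) with hbc | hbc
        · rcases Nat.mod_two_eq_zero_or_one (a + c + e) with hac | hac
          · apply g2
            refine ⟨?_, hbc, ?_⟩ <;> omega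
          · apply g1
            refine ⟨?_, hbc, ?_⟩ <;> omega
        · rcases Nat.mod_two_eq_zero_or_one (a + c + e) with hac | hac
          · apply g4
            refine ⟨?_, ?_, ?_⟩ <;> omega
          · apply g3
            refine ⟨?_, ?_, ?_⟩ <;> omega

theorem Q5_rec_plain (a b c d e : ℕ) (ht : (a, c, e) ∉ oddList) :
    Q5 a b c d e ↔ Rec5 Q5 a b c d e := by
  obtain ⟨p0, p1, p2, p3, p4, p5, p6, p7, p8⟩ := plainNb ht
  have hne : a + b + c + d + e ≠ 0 := by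
    have := p0.1
    omega
  rw [Q5_plain p0, rule_rec a b c d e hne]
  unfold Rec5
  have q1 : (1 ≤ a → ¬ Q5 (a - 1) b c d e) ↔ (1 ≤ a → ¬ Rule5 (a - 1) b c d e) :=
    forall_congr' fun h => by rw [Q5_plain (p1 h)]
  have q3 : (1 ≤ c → ¬ Q5 a b (c - 1) d e ∧ ¬ Q5 (a + 1) b (c - 1) d e ∧
      ¬ Q5 a (b + 1) (c - 1) d e) ↔ (1 ≤ c → ¬ Rule5 a b (c - 1) d e ∧
      ¬ Rule5 (a + 1) b (c - 1) d e ∧ ¬ Rule5 a (b + 1) (c - 1) d e) :=
    forall_congr' fun h => by rw [Q5_plain (p3 h), Q5_plain (p4 h), Q5_plain (p3 h)]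
  have q6 : (1 ≤ e → ¬ Q5 a b c d (e - 1) ∧ ¬ Q5 (a + 1) b c d (e - 1) ∧
      ¬ Q5 a (b + 1) c d (e - 1) ∧ ¬ Q5 a b (c + 1) d (e - 1) ∧ ¬ Q5 a b c (d + 1) (e - 1)) ↔
      (1 ≤ e → ¬ Rule5 a b c d (e - 1) ∧ ¬ Rule5 (a + 1) b c d (e - 1) ∧
      ¬ Rule5 a (b + 1) c d (e - 1) ∧ ¬ Rule5 a b (c + 1) d (e - 1) ∧
      ¬ Rule5 a b c (d + 1) (e - 1)) :=
    forall_congr' fun h => by
      rw [Q5_plain (p6 h), Q5_plain (p7 h), Q5_plain (p6 h), Q5_plain (p8 h), Q5_plain (p6 h)]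
  rw [q1, q3, q6, Q5_plain p0, Q5_plain p2, Q5_plain p0, Q5_plain p2, Q5_plain p0,
    Q5_plain p5]

theorem Q5_rec (a b c d e : ℕ) : Q5 a b c d e ↔ Rec5 Q5 a b c d e := by
  by_cases ht : (a, c, e) ∈ oddList
  · exact Q5_rec_list a c e ht _ b d le_rfl
  · exact Q5_rec_plain a b c d e ht

end Pool.Agent.NimPass
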