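import Pool.Agent.NimPass.Basic
import Pool.Agent.NimPass.Q5RecB

/-! From the recursion on heap counts to the game. -/

namespace Pool.Agent.NimPass

/-- number of heaps of size `k` -/
def cnt {n : ℕ} (h : Fin n → ℕ) (k : ℕ) : ℕ := (Finset.univ.filter (fun i => h i = k)).card

theorem cnt_eq_sum {n : ℕ} (h : Fin n → ℕ) (k : ℕ) :
    cnt h k = ∑ i, if h i = k then 1 else 0 := by
  unfold cnt
  rw [Finset.card_filter]

theorem cnt_update {n : ℕ} (h : Fin n → ℕ) (i : Fin n) (v k : ℕ) :
    cnt (Function.update h i v) k + (if h i = k then 1 else 0) =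
      cnt h k + (if v = k then 1 else 0) := by
  rw [cnt_eq_sum, cnt_eq_sum, ← Finset.add_sum_erase Finset.univ _ (Finset.mem_univ i),
    ← Finset.add_sum_erase Finset.univ (fun j => if h j = k then 1 else 0) (Finset.mem_univ i)]
  have : ∑ x ∈ Finset.univ.erase i, (if Function.update h i v x = k then 1 else 0) =
      ∑ x ∈ Finset.univ.erase i, (if h x = k then 1 else 0) := by
    apply Finset.sum_congr rfl
    intro x hx
    rw [Function.update_of_ne (Finset.ne_of_mem_erase hx)]
  rw [this, Function.update_self]
  ring

theorem cnt_pos {n : ℕ} {h : Fin n → ℕ} {k : ℕ} (hk : 1 ≤ cnt h k) : ∃ i, h i = k := by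
  unfold cnt at hk
  obtain ⟨i, hi⟩ := Finset.card_pos.1 hk
  exact ⟨i, (Finset.mem_filter.1 hi).2⟩

theorem pos_cnt {n : ℕ} (h : Fin n → ℕ) (i : Fin n) : 1 ≤ cnt h (h i) := by
  unfold cnt
  exact Finset.card_pos.2 ⟨i, by simp⟩

/-- the count on a subset -/
def cntOn {n : ℕ} (s : Finset (Fin n)) (h : Fin n → ℕ) (k : ℕ) : ℕ :=
  (s.filter (fun i => h i = k)).card

theorem cntOn_insert {n : ℕ} {s : Finset (Fin n)} {a : Fin n} (ha : a ∉ s) (h : Fin n → ℕ)
    (k : ℕ) : cntOn (insert a s) h k = (if h a = k then 1 else 0) + cntOn s h k := by
  unfold cntOn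
  rw [Finset.filter_insert]
  split_ifs with hk
  · rw [Finset.card_insert_of_notMem (by simp [ha])]; ring
  · simp

theorem xor_small (s x y z : ℕ) (hs : s ≤ 5) (hx : x < 2) (hy : y < 2) (hz : z < 2) :
    s ^^^ (x + 2 * y + 4 * z) =
      ((if s = 1 then 1 else 0) + (if s = 3 then 1 else 0) + (if s = 5 then 1 else 0) + x) % 2 +
      2 * (((if s = 2 then 1 else 0) + (if s = 3 then 1 else 0) + y) % 2) +
      4 * (((if s = 4 then 1 else 0) + (if s = 5 then 1 else 0) + z) % 2) := by
  interval_cases s <;> interval_cases x <;> interval_cases y <;> interval_cases z <;> decide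

theorem nimSumOn_five {n : ℕ} (h : Fin n → ℕ) (hh : ∀ i, h i ≤ 5) (s : Finset (Fin n)) :
    nimSumOn s h = (cntOn s h 1 + cntOn s h 3 + cntOn s h 5) % 2 +
      2 * ((cntOn s h 2 + cntOn s h 3) % 2) + 4 * ((cntOn s h 4 + cntOn s h 5) % 2) := by
  induction s using Finset.induction_on with
  | empty => simp [nimSumOn_empty, cntOn]
  | insert a s ha ih =>
    rw [nimSumOn_insert ha, ih, xor_small (h a) _ _ _ (hh a) (Nat.mod_lt _ (by norm_num))
      (Nat.mod_lt _ (by norm_num)) (Nat.mod_lt _ (by norm_num))]
    simp only [cntOn_insert ha]
    congr 1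
    · congr 1
      · omega
      · omega
    · omega

theorem nimSum_five {n : ℕ} (h : Fin n → ℕ) (hh : ∀ i, h i ≤ 5) :
    nimSum h = (cnt h 1 + cnt h 3 + cnt h 5) % 2 +
      2 * ((cnt h 2 + cnt h 3) % 2) + 4 * ((cnt h 4 + cnt h 5) % 2) :=
  nimSumOn_five h hh Finset.univ

theorem exists_ne_zero_iff {n : ℕ} (h : Fin n → ℕ) (hh : ∀ i, h i ≤ 5) :
    (∃ i, h i ≠ 0) ↔ cnt h 1 + cnt h 2 + cnt h 3 + cnt h 4 + cnt h 5 ≠ 0 := by
  constructor
  · rintro ⟨i, hi⟩
    have h1 := pos_cnt h i
    have h2 := hh i
    have : h i = 1 ∨ h i = 2 ∨ h i = 3 ∨ h i = 4 ∨ h i = 5 := by omega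
    rcases this with h | h | h | h | h <;> rw [h] at h1 <;> omega
  · intro hne
    have : 1 ≤ cnt h 1 ∨ 1 ≤ cnt h 2 ∨ 1 ≤ cnt h 3 ∨ 1 ≤ cnt h 4 ∨ 1 ≤ cnt h 5 := by omega
    rcases this with h | h | h | h | h <;> obtain ⟨i, hi⟩ := cnt_pos h <;>
      exact ⟨i, by rw [hi]; norm_num⟩

/-- The explicit description of the P-positions with all heaps at most 5. -/
theorem five {n : ℕ} (h : Fin n → ℕ) (hh : ∀ i, h i ≤ 5) :
    PPos (h, true) ↔ Q5 (cnt h 1) (cnt h 2) (cnt h 3) (cnt h 4) (cnt h 5) := by
  induction hk : (∑ i, h i) using Nat.strong_induction_on generalizing h with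
  | _ k ih =>
    rw [ppos_true, Q5_rec, Rec5]
    have hup : ∀ i v, v < h i → ∀ j, Function.update h i v j ≤ 5 := by
      intro i v hv j
      by_cases hj : j = i
      · subst hj; rw [Function.update_self]; have := hh j; omega
      · rw [Function.update_of_ne hj]; exact hh j
    have step : ∀ i v, v < h i → (PPos (Function.update h i v, true) ↔
        Q5 (cnt (Function.update h i v) 1) (cnt (Function.update h i v) 2)
          (cnt (Function.update h i v) 3) (cnt (Function.update h i v) 4)
          (cnt (Function.update h i v) 5)) := by
      intro i v hv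
      exact ih _ (by rw [← hk]; exact sum_update_lt h i v hv) _ (hup i v hv) rfl
    have hn : ((∃ i, h i ≠ 0) → nimSum h ≠ 0) ↔
        (cnt h 1 + cnt h 2 + cnt h 3 + cnt h 4 + cnt h 5 ≠ 0 →
          ¬ ((cnt h 1 + cnt h 3 + cnt h 5) % 2 = 0 ∧ (cnt h 2 + cnt h 3) % 2 = 0 ∧
            (cnt h 4 + cnt h 5) % 2 = 0)) := by
      rw [exists_ne_zero_iff h hh, nimSum_five h hh]
      omega
    rw [hn]
    apply and_congr_right
    intro _
    constructor
    · intro H
      refine ⟨?_, ?_, ?_, ?_, ?_⟩
      · intro hc
        obtain ⟨i, hi⟩ := cnt_pos hc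
        have g := fun v hv => (not_congr (step i v hv)).1 (H i v hv)
        have c := fun v k => cnt_update h i v k
        rw [hi] at g c
        have g0 := g 0 (by norm_num)
        have c01 := c 0 1; have c02 := c 0 2; have c03 := c 0 3; have c04 := c 0 4
        have c05 := c 0 5
        simp at c01 c02 c03 c04 c05
        rw [c02, c03, c04, c05, show cnt (Function.update h i 0) 1 = cnt h 1 - 1 by omega] at g0
        exact g0
      · intro hc
        obtain ⟨i, hi⟩ := cnt_pos hc
        have g := fun v hv => (not_congr (step i v hv)).1 (H i v hv)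
        have c := fun v k => cnt_update h i v k
        rw [hi] at g c
        refine ⟨?_, ?_⟩
        · have g0 := g 0 (by norm_num)
          have c01 := c 0 1; have c02 := c 0 2; have c03 := c 0 3; have c04 := c 0 4
          have c05 := c 0 5
          simp at c01 c02 c03 c04 c05
          rw [c01, c03, c04, c05, show cnt (Function.update h i 0) 2 = cnt h 2 - 1 by omega] at g0
          exact g0
        · have g0 := g 1 (by norm_num)
          have c01 := c 1 1; have c02 := c 1 2; have c03 := c 1 3; have c04 := c 1 4
          have c05 := c 1 5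
          simp at c01 c02 c03 c04 c05
          rw [c01, c03, c04, c05, show cnt (Function.update h i 1) 2 = cnt h 2 - 1 by omega] at g0
          exact g0
      · intro hc
        obtain ⟨i, hi⟩ := cnt_pos hc
        have g := fun v hv => (not_congr (step i v hv)).1 (H i v hv)
        have c := fun v k => cnt_update h i v k
        rw [hi] at g c
        refine ⟨?_, ?_, ?_⟩
        · have g0 := g 0 (by norm_num)
          have c01 := c 0 1; have c02 := c 0 2; have c03 := c 0 3; have c04 := c 0 4
          have c05 := c 0 5
          simp at c01 c02 c03 c04 c05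
          rw [c01, c02, c04, c05, show cnt (Function.update h i 0) 3 = cnt h 3 - 1 by omega] at g0
          exact g0
        · have g0 := g 1 (by norm_num)
          have c01 := c 1 1; have c02 := c 1 2; have c03 := c 1 3; have c04 := c 1 4
          have c05 := c 1 5
          simp at c01 c02 c03 c04 c05
          rw [c01, c02, c04, c05, show cnt (Function.update h i 1) 3 = cnt h 3 - 1 by omega] at g0
          exact g0
        · have g0 := g 2 (by norm_num)
          have c01 := c 2 1; have c02 := c 2 2; have c03 := c 2 3; have c04 := c 2 4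
          have c05 := c 2 5
          simp at c01 c02 c03 c04 c05
          rw [c01, c02, c04, c05, show cnt (Function.update h i 2) 3 = cnt h 3 - 1 by omega] at g0
          exact g0
      · intro hc
        obtain ⟨i, hi⟩ := cnt_pos hc
        have g := fun v hv => (not_congr (step i v hv)).1 (H i v hv)
        have c := fun v k => cnt_update h i v k
        rw [hi] at g c
        refine ⟨?_, ?_, ?_, ?_⟩
        · have g0 := g 0 (by norm_num)
          have c01 := c 0 1; have c02 := c 0 2; have c03 := c 0 3; have c04 := c 0 4
          have c05 := c 0 5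
          simp at c01 c02 c03 c04 c05
          rw [c01, c02, c03, c05, show cnt (Function.update h i 0) 4 = cnt h 4 - 1 by omega] at g0
          exact g0
        · have g0 := g 1 (by norm_num)
          have c01 := c 1 1; have c02 := c 1 2; have c03 := c 1 3; have c04 := c 1 4
          have c05 := c 1 5
          simp at c01 c02 c03 c04 c05
          rw [c01, c02, c03, c05, show cnt (Function.update h i 1) 4 = cnt h 4 - 1 by omega] at g0
          exact g0
        · have g0 := g 2 (by norm_num)
          have c01 := c 2 1; have c02 := c 2 2; have c03 := c 2 3; have c04 := c 2 4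
          have c05 := c 2 5
          simp at c01 c02 c03 c04 c05
          rw [c01, c02, c03, c05, show cnt (Function.update h i 2) 4 = cnt h 4 - 1 by omega] at g0
          exact g0
        · have g0 := g 3 (by norm_num)
          have c01 := c 3 1; have c02 := c 3 2; have c03 := c 3 3; have c04 := c 3 4
          have c05 := c 3 5
          simp at c01 c02 c03 c04 c05
          rw [c01, c02, c03, c05, show cnt (Function.update h i 3) 4 = cnt h 4 - 1 by omega] at g0
          exact g0
      · intro hc
        obtain ⟨i, hi⟩ := cnt_pos hc
        have g := fun v hv => (not_congr (step i v hv)).1 (H i v hv)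
        have c := fun v k => cnt_update h i v k
        rw [hi] at g c
        refine ⟨?_, ?_, ?_, ?_, ?_⟩
        · have g0 := g 0 (by norm_num)
          have c01 := c 0 1; have c02 := c 0 2; have c03 := c 0 3; have c04 := c 0 4
          have c05 := c 0 5
          simp at c01 c02 c03 c04 c05
          rw [c01, c02, c03, c04, show cnt (Function.update h i 0) 5 = cnt h 5 - 1 by omega] at g0
          exact g0
        · have g0 := g 1 (by norm_num)
          have c01 := c 1 1; have c02 := c 1 2; have c03 := c 1 3; have c04 := c 1 4
          have c05 := c 1 5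
          simp at c01 c02 c03 c04 c05
          rw [c01, c02, c03, c04, show cnt (Function.update h i 1) 5 = cnt h 5 - 1 by omega] at g0
          exact g0
        · have g0 := g 2 (by norm_num)
          have c01 := c 2 1; have c02 := c 2 2; have c03 := c 2 3; have c04 := c 2 4
          have c05 := c 2 5
          simp at c01 c02 c03 c04 c05
          rw [c01, c02, c03, c04, show cnt (Function.update h i 2) 5 = cnt h 5 - 1 by omega] at g0
          exact g0
        · have g0 := g 3 (by norm_num)
          have c01 := c 3 1; have c02 := c 3 2; have c03 := c 3 3; have c04 := c 3 4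
          have c05 := c 3 5
          simp at c01 c02 c03 c04 c05
          rw [c01, c02, c03, c04, show cnt (Function.update h i 3) 5 = cnt h 5 - 1 by omega] at g0
          exact g0
        · have g0 := g 4 (by norm_num)
          have c01 := c 4 1; have c02 := c 4 2; have c03 := c 4 3; have c04 := c 4 4
          have c05 := c 4 5
          simp at c01 c02 c03 c04 c05
          rw [c01, c02, c03, c04, show cnt (Function.update h i 4) 5 = cnt h 5 - 1 by omega] at g0
          exact g0
    · rintro ⟨H1, H2, H3, H4, H5⟩ i v hv
      rw [step i v hv]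
      have hp := pos_cnt h i
      have c01 := cnt_update h i v 1
      have c02 := cnt_update h i v 2
      have c03 := cnt_update h i v 3
      have c04 := cnt_update h i v 4
      have c05 := cnt_update h i v 5
      have h5 := hh i
      generalize hs : h i = s at hv hp c01 c02 c03 c04 c05 h5
      generalize cnt (Function.update h i v) 1 = x1 at *
      generalize cnt (Function.update h i v) 2 = x2 at *
      generalize cnt (Function.update h i v) 3 = x3 at *
      generalize cnt (Function.update h i v) 4 = x4 at *
      generalize cnt (Function.update h i v) 5 = x5 at *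
      have hs1 : 1 ≤ s := by omega
      interval_cases s
      · interval_cases v
        simp at c01 c02 c03 c04 c05
        obtain rfl : x1 = cnt h 1 - 1 := by omega
        subst c02 c03 c04 c05
        exact H1 hp
      · have H2 := H2 hp
        interval_cases v <;> simp at c01 c02 c03 c04 c05 <;>
          obtain rfl : x2 = cnt h 2 - 1 := by omega
        · subst c01 c03 c04 c05
          exact H2.1
        · subst c01 c03 c04 c05
          exact H2.2
      · have H3 := H3 hp
        interval_cases v <;> simp at c01 c02 c03 c04 c05 <;>
          obtain rfl : x3 = cnt h 3 - 1 := by omega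
        · subst c01 c02 c04 c05
          exact H3.1
        · subst c01 c02 c04 c05
          exact H3.2.1
        · subst c01 c02 c04 c05
          exact H3.2.2
      · have H4 := H4 hp
        interval_cases v <;> simp at c01 c02 c03 c04 c05 <;>
          obtain rfl : x4 = cnt h 4 - 1 := by omega
        · subst c01 c02 c03 c05
          exact H4.1
        · subst c01 c02 c03 c05
          exact H4.2.1
        · subst c01 c02 c03 c05
          exact H4.2.2.1
        · subst c01 c02 c03 c05
          exact H4.2.2.2
      · have H5 := H5 hp
        interval_cases v <;> simp at c01 c02 c03 c04 c05 <;>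
          obtain rfl : x5 = cnt h 5 - 1 := by omega
        · subst c01 c02 c03 c04
          exact H5.1
        · subst c01 c02 c03 c04
          exact H5.2.1
        · subst c01 c02 c03 c04
          exact H5.2.2.1
        · subst c01 c02 c03 c04
          exact H5.2.2.2.1
        · subst c01 c02 c03 c04
          exact H5.2.2.2.2

end Pool.Agent.NimPass
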