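import Mathlib

/-! Greedy diagonal matchings of the quarter plane are eventually additively periodic. -/

namespace Pool.Agent.NimPass

/-- Eventual periodicity along the diagonal direction. -/
def EvPer (H : ℕ → ℕ → Prop) : Prop :=
  ∃ q : ℕ, 0 < q ∧ ∃ N : ℕ, ∀ b c, N ≤ b → N ≤ c → (H (b + q) (c + q) ↔ H b c)

theorem EvPer.mul {H : ℕ → ℕ → Prop} {q N : ℕ}
    (h : ∀ b c, N ≤ b → N ≤ c → (H (b + q) (c + q) ↔ H b c)) (m : ℕ) :
    ∀ b c, N ≤ b → N ≤ c → (H (b + q * m) (c + q * m) ↔ H b c) := by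
  induction m with
  | zero => intro b c _ _; simp
  | succ m ih =>
    intro b c hb hc
    rw [← ih b c hb hc, Nat.mul_succ, ← add_assoc, ← add_assoc]
    exact h _ _ (by omega) (by omega)

theorem EvPer.or {H₁ H₂ : ℕ → ℕ → Prop} (h₁ : EvPer H₁) (h₂ : EvPer H₂) :
    EvPer (fun b c => H₁ b c ∨ H₂ b c) := by
  obtain ⟨q₁, hq₁, N₁, h₁⟩ := h₁
  obtain ⟨q₂, hq₂, N₂, h₂⟩ := h₂
  refine ⟨q₁ * q₂, Nat.mul_pos hq₁ hq₂, max N₁ N₂, ?_⟩
  intro b c hb hc
  have e1 := EvPer.mul h₁ q₂ b c (by omega) (by omega)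
  have e2 := EvPer.mul h₂ q₁ b c (by omega) (by omega)
  rw [Nat.mul_comm q₂ q₁] at e2
  show (_ ∨ _) ↔ (_ ∨ _)
  rw [e1, e2]

theorem EvPer.finset {α : Type} (s : Finset α) (H : α → ℕ → ℕ → Prop)
    (h : ∀ a ∈ s, EvPer (H a)) : EvPer (fun b c => ∃ a ∈ s, H a b c) := by
  classical
  induction s using Finset.induction_on with
  | empty => exact ⟨1, one_pos, 0, fun b c _ _ => by simp⟩
  | insert a s ha ih =>
    have h1 := EvPer.or (h a (Finset.mem_insert_self _ _))
      (ih fun x hx => h x (Finset.mem_insert_of_mem hx))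
    obtain ⟨q, hq, N, hN⟩ := h1
    refine ⟨q, hq, N, fun b c hb hc => ?_⟩
    simpa [Finset.exists_mem_insert] using hN b c hb hc

/-- The data of a greedy matching. -/
structure Greedy (F G : ℕ → ℕ → Prop) (K : ℕ) : Prop where
  recu : ∀ b c, (b ≠ 0 ∨ c ≠ 0) → (F b c ↔ ¬ G b c ∧ (∀ b' < b, ¬ F b' c) ∧ ∀ c' < c, ¬ F b c')
  zero : ¬ F 0 0 → G 0 0
  symm : ∀ b c, G b c ↔ G c b
  row : ∀ b, ∀ S : Finset ℕ, (∀ c ∈ S, G b c) → S.card ≤ K

namespace Greedy

variable {F G : ℕ → ℕ → Prop} {K : ℕ}

theorem symmF (h : Greedy F G K) : ∀ k b c, b + c ≤ k → (F b c ↔ F c b) := by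
  intro k
  induction k with
  | zero => intro b c hbc; obtain rfl : b = 0 := by omega
            obtain rfl : c = 0 := by omega
            rfl
  | succ k ih =>
    intro b c hbc
    by_cases h0 : b ≠ 0 ∨ c ≠ 0
    · rw [h.recu b c h0, h.recu c b h0.symm, h.symm b c]
      have e1 : (∀ b' < b, ¬ F b' c) ↔ (∀ b' < b, ¬ F c b') :=
        forall_congr' fun b' => forall_congr' fun hb => not_congr (ih b' c (by omega))
      have e2 : (∀ c' < c, ¬ F b c') ↔ (∀ c' < c, ¬ F c' b) :=
        forall_congr' fun c' => forall_congr' fun hc => not_congr (ih b c' (by omega))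
      rw [e1, e2]
      tauto
    · push Not at h0
      obtain ⟨rfl, rfl⟩ := h0
      rfl

theorem F_symm (h : Greedy F G K) (b c : ℕ) : F b c ↔ F c b := h.symmF _ b c le_rfl

theorem row_unique (h : Greedy F G K) {b c c' : ℕ} (h1 : F b c) (h2 : F b c') : c = c' := by
  rcases lt_trichotomy c c' with hlt | heq | hlt
  · exact absurd h1 (((h.recu b c' (by omega)).1 h2).2.2 c hlt)
  · exact heq
  · exact absurd h2 (((h.recu b c (by omega)).1 h1).2.2 c' hlt)

theorem reason (h : Greedy F G K) {b c : ℕ} (hn : ¬ F b c) :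
    G b c ∨ (∃ b' < b, F b' c) ∨ ∃ c' < c, F b c' := by
  by_cases h0 : b ≠ 0 ∨ c ≠ 0
  · rw [h.recu b c h0] at hn
    by_contra hcon
    push Not at hcon
    exact hn ⟨hcon.1, hcon.2.1, hcon.2.2⟩
  · push Not at h0
    obtain ⟨rfl, rfl⟩ := h0
    exact Or.inl (h.zero hn)

theorem count (h : Greedy F G K) (b c : ℕ)
    (hc : ∀ c' < c, G b c' ∨ ∃ b' < b, F b' c') : c ≤ b + K := by
  classical
  have hsub : Finset.range c ⊆ (Finset.range c).filter (fun x => G b x) ∪
      (Finset.range c).filter (fun x => ∃ b' < b, F b' x) := by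
    intro x hx
    rcases hc x (Finset.mem_range.1 hx) with h1 | h1
    · exact Finset.mem_union_left _ (Finset.mem_filter.2 ⟨hx, h1⟩)
    · exact Finset.mem_union_right _ (Finset.mem_filter.2 ⟨hx, h1⟩)
  have h1 : ((Finset.range c).filter (fun x => G b x)).card ≤ K :=
    h.row b _ (fun x hx => (Finset.mem_filter.1 hx).2)
  have h2 : ((Finset.range c).filter (fun x => ∃ b' < b, F b' x)).card ≤ b := by
    have : ∀ x ∈ (Finset.range c).filter (fun x => ∃ b' < b, F b' x), ∃ b' < b, F b' x :=
      fun x hx => (Finset.mem_filter.1 hx).2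
    choose! g hg1 hg2 using this
    calc _ ≤ (Finset.range b).card := by
          apply Finset.card_le_card_of_injOn g
          · intro x hx
            exact Finset.mem_coe.2 (Finset.mem_range.2 (hg1 x (Finset.mem_coe.1 hx)))
          · intro x hx y hy hxy
            have e1 := hg2 x (Finset.mem_coe.1 hx)
            have e2 := hg2 y (Finset.mem_coe.1 hy)
            rw [hxy] at e1
            exact h.row_unique e1 e2
      _ = b := Finset.card_range b
  have h3 := (Finset.card_le_card hsub).trans (Finset.card_union_le _ _)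
  rw [Finset.card_range] at h3
  omega

theorem bound (h : Greedy F G K) {b c : ℕ} (hF : F b c) : c ≤ b + K := by
  apply h.count
  intro c' hc'
  have hn : ¬ F b c' := by
    intro hF'
    have := h.row_unique hF hF'
    omega
  rcases h.reason hn with h1 | h1 | ⟨c'', h1, h2⟩
  · exact Or.inl h1
  · exact Or.inr h1
  · have := h.row_unique hF h2
    omega

theorem bound' (h : Greedy F G K) {b c : ℕ} (hF : F b c) : b ≤ c + K :=
  h.bound ((h.F_symm b c).1 hF)

theorem total (h : Greedy F G K) (b : ℕ) : ∃ c, F b c := by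
  by_contra hcon
  push Not at hcon
  have := h.count b (b + K + 1) (by
    intro c' _
    rcases h.reason (hcon c') with h1 | h1 | ⟨c'', _, h2⟩
    · exact Or.inl h1
    · exact Or.inr h1
    · exact absurd h2 (hcon c''))
  omega

theorem existsUnique (h : Greedy F G K) (b : ℕ) : ∃! c, F b c := by
  obtain ⟨c, hc⟩ := h.total b
  exact ⟨c, hc, fun c' hc' => h.row_unique hc' hc⟩

/-- state -/
def U (F : ℕ → ℕ → Prop) (t i : ℕ) : Prop := ∃ b < t, F b (t + i)

theorem U_lt (h : Greedy F G K) {t i : ℕ} (hU : U F t i) : i < K := by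
  obtain ⟨b, hb, hF⟩ := hU
  have := h.bound hF
  omega

theorem U_succ (t i : ℕ) : U F (t + 1) i ↔ U F t (i + 1) ∨ F t (t + (i + 1)) := by
  unfold U
  constructor
  · rintro ⟨b, hb, hF⟩
    rw [show t + 1 + i = t + (i + 1) by omega] at hF
    rcases Nat.lt_succ_iff_lt_or_eq.1 hb with h1 | h1
    · exact Or.inl ⟨b, h1, hF⟩
    · subst h1; exact Or.inr hF
  · rintro (⟨b, hb, hF⟩ | hF)
    · exact ⟨b, by omega, by rw [show t + 1 + i = t + (i + 1) by omega]; exact hF⟩
    · exact ⟨t, by omega, by rw [show t + 1 + i = t + (i + 1) by omega]; exact hF⟩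

theorem F_diag (h : Greedy F G K) (t j : ℕ) (ht : 1 ≤ t) :
    F t (t + j) ↔ ¬ G t (t + j) ∧ ¬ U F t j ∧ ¬ U F t 0 ∧ ∀ j' < j, ¬ F t (t + j') := by
  rw [h.recu t (t + j) (by omega)]
  unfold U
  constructor
  · rintro ⟨h1, h2, h3⟩
    refine ⟨h1, ?_, ?_, ?_⟩
    · rintro ⟨b, hb, hF⟩; exact h2 b hb hF
    · rintro ⟨b, hb, hF⟩
      exact h3 b (by omega) ((h.F_symm t b).2 (by simpa using hF))
    · intro j' hj'; exact h3 (t + j') (by omega)
  · rintro ⟨h1, h2, h3, h4⟩
    refine ⟨h1, ?_, ?_⟩
    · intro b hb hF; exact h2 ⟨b, hb, hF⟩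
    · intro c' hc' hF
      rcases lt_or_ge c' t with h5 | h5
      · exact h3 ⟨c', h5, by simpa using (h.F_symm t c').1 hF⟩
      · have := h4 (c' - t) (by omega)
        rw [show t + (c' - t) = c' by omega] at this
        exact this hF

theorem F_diag_eq (h : Greedy F G K) {u p : ℕ} (hu : 1 ≤ u)
    (hG : ∀ j, G (u + p) (u + p + j) ↔ G u (u + j)) (hU : ∀ i, U F (u + p) i ↔ U F u i) :
    ∀ j, F (u + p) (u + p + j) ↔ F u (u + j) := by
  intro j
  induction j using Nat.strong_induction_on with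
  | _ j ih =>
    rw [h.F_diag (u + p) j (by omega), h.F_diag u j hu, hG, hU, hU]
    have : (∀ j' < j, ¬ F (u + p) (u + p + j')) ↔ (∀ j' < j, ¬ F u (u + j')) :=
      forall_congr' fun j' => forall_congr' fun hj => not_congr (ih j' hj)
    rw [this]

theorem evPer (h : Greedy F G K) (hG : EvPer G) :
    ∃ p : ℕ, 0 < p ∧ ∃ N : ℕ, ∀ b c, N ≤ b → (F (b + p) (c + p) ↔ F b c) := by
  classical
  obtain ⟨q, hq, N0, hN0⟩ := hG
  -- pigeonhole
  let t : ℕ → ℕ := fun k => N0 + 1 + q * k
  let st : ℕ → Finset ℕ := fun k => (Finset.range K).filter (fun i => U F (t k) i)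
  have hmem : ∀ k, st k ∈ (Finset.range K).powerset := fun k =>
    Finset.mem_powerset.2 (Finset.filter_subset _ _)
  obtain ⟨k, l, hkl, heq⟩ : ∃ k l, k < l ∧ st k = st l := by
    by_contra hcon
    push Not at hcon
    have hinj : Function.Injective (fun k => (⟨st k, hmem k⟩ : (Finset.range K).powerset)) := by
      intro a b hab
      simp only [Subtype.mk.injEq] at hab
      rcases lt_trichotomy a b with h1 | h1 | h1
      · exact absurd hab (hcon a b h1)
      · exact h1
      · exact absurd hab.symm (hcon b a h1)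
    exact not_injective_infinite_finite _ hinj
  obtain ⟨m, rfl⟩ : ∃ m, l = k + m := ⟨l - k, by omega⟩
  have hm : 0 < m := by omega
  have hp : 0 < q * m := Nat.mul_pos hq hm
  have htl : t (k + m) = t k + q * m := by simp only [t]; ring
  have hUeq : ∀ i, U F (t k + q * m) i ↔ U F (t k) i := by
    intro i
    rw [← htl]
    constructor
    · intro hU
      have : i ∈ st (k + m) := Finset.mem_filter.2 ⟨Finset.mem_range.2 (h.U_lt hU), hU⟩
      rw [← heq] at this
      exact (Finset.mem_filter.1 this).2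
    · intro hU
      have : i ∈ st k := Finset.mem_filter.2 ⟨Finset.mem_range.2 (h.U_lt hU), hU⟩
      rw [heq] at this
      exact (Finset.mem_filter.1 this).2
  have hGm := EvPer.mul hN0 m
  have htk : N0 + 1 ≤ t k := by simp only [t]; omega
  have hall : ∀ n, (∀ i, U F (t k + n + q * m) i ↔ U F (t k + n) i) := by
    intro n
    induction n with
    | zero => simpa using hUeq
    | succ n ih =>
      intro i
      have e1 : t k + (n + 1) + q * m = (t k + n + q * m) + 1 := by omega
      have e2 : t k + (n + 1) = (t k + n) + 1 := by omega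
      rw [e1, e2, U_succ, U_succ, ih]
      rw [h.F_diag_eq (u := t k + n) (p := q * m) (by omega) (fun j => by
        have := hGm (t k + n) (t k + n + j) (by omega) (by omega)
        rw [show t k + n + j + q * m = t k + n + q * m + j by omega] at this
        exact this) ih]
  have hFall : ∀ u j, t k ≤ u → (F (u + q * m) (u + q * m + j) ↔ F u (u + j)) := by
    intro u j hu
    obtain ⟨n, rfl⟩ : ∃ n, u = t k + n := ⟨u - t k, by omega⟩
    exact h.F_diag_eq (u := t k + n) (p := q * m) (by omega) (fun j => by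
        have := hGm (t k + n) (t k + n + j) (by omega) (by omega)
        rw [show t k + n + j + q * m = t k + n + q * m + j by omega] at this
        exact this) (hall n) j
  refine ⟨q * m, hp, t k + K, ?_⟩
  intro b c hb
  rcases le_or_gt b c with hbc | hbc
  · obtain ⟨j, rfl⟩ : ∃ j, c = b + j := ⟨c - b, by omega⟩
    have := hFall b j (by omega)
    rw [show b + q * m + j = b + j + q * m by omega] at this
    exact this
  · rcases le_or_gt (t k) c with htc | htc
    · obtain ⟨j, rfl⟩ : ∃ j, b = c + j := ⟨b - c, by omega⟩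
      have := hFall c j htc
      rw [show c + q * m + j = c + j + q * m by omega] at this
      rw [h.F_symm, this, h.F_symm]
    · constructor
      · intro hF; have := h.bound' hF; omega
      · intro hF; have := h.bound' hF; omega

end Greedy

end Pool.Agent.NimPass
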