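import Pool.Agent.NimPass.Basic
import Pool.Agent.NimPass.Greedy

/-! Two free heaps, the others fixed: the P-positions form a greedy matching. -/

namespace Pool.Agent.NimPass

/-- The position with heaps `b`, `c` and the heaps of `r`. -/
def withTwo {m : ℕ} (b c : ℕ) (r : Fin m → ℕ) : Fin (m + 2) → ℕ := Fin.cons b (Fin.cons c r)

theorem nimSum_cons {m : ℕ} (x : ℕ) (p : Fin m → ℕ) :
    nimSum (Fin.cons x p : Fin (m + 1) → ℕ) = x ^^^ nimSum p := by
  unfold nimSum nimSumOn
  rw [Fin.univ_succ, Finset.fold_cons, Finset.fold_map]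
  rfl

theorem nimSum_withTwo {m : ℕ} (b c : ℕ) (r : Fin m → ℕ) :
    nimSum (withTwo b c r) = b ^^^ (c ^^^ nimSum r) := by
  unfold withTwo
  rw [nimSum_cons, nimSum_cons]

theorem withTwo_rec {m : ℕ} (b c : ℕ) (r : Fin m → ℕ) :
    PPos (withTwo b c r, true) ↔
      (((b ≠ 0 ∨ c ≠ 0 ∨ ∃ i, r i ≠ 0) → b ^^^ (c ^^^ nimSum r) ≠ 0) ∧
      (∀ v < b, ¬ PPos (withTwo v c r, true)) ∧ (∀ v < c, ¬ PPos (withTwo b v r, true)) ∧
      ∀ i v, v < r i → ¬ PPos (withTwo b c (Function.update r i v), true)) := by
  have u0 : ∀ v, Function.update (withTwo b c r) 0 v = withTwo v c r := by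
    intro v; unfold withTwo; rw [Fin.update_cons_zero]
  have u1 : ∀ v, Function.update (withTwo b c r) (Fin.succ 0) v = withTwo b v r := by
    intro v; unfold withTwo; rw [← Fin.cons_update, Fin.update_cons_zero]
  have u2 : ∀ (i : Fin m) v, Function.update (withTwo b c r) (Fin.succ (Fin.succ i)) v =
      withTwo b c (Function.update r i v) := by
    intro i v; unfold withTwo; rw [← Fin.cons_update, ← Fin.cons_update]
  have w0 : withTwo b c r 0 = b := rfl
  have w1 : withTwo b c r (Fin.succ 0) = c := rfl
  have w2 : ∀ i : Fin m, withTwo b c r (Fin.succ (Fin.succ i)) = r i := fun i => rfl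
  rw [ppos_true, nimSum_withTwo]
  rw [Fin.forall_fin_succ, Fin.forall_fin_succ, Fin.exists_fin_succ, Fin.exists_fin_succ]
  simp only [u0, u1, u2, w0, w1, w2]

theorem xor_shift (q m b c s : ℕ) (hs : s < 2 ^ q) :
    ((b + 2 ^ q * m) ^^^ (c + 2 ^ q * m) = s ↔ b ^^^ c = s) := by
  have key : ∀ b c : ℕ, b ^^^ c = s ↔ (b / 2 ^ q = c / 2 ^ q ∧ (b % 2 ^ q) ^^^ (c % 2 ^ q) = s) := by
    intro b c
    constructor
    · intro h
      have h1 : (b ^^^ c) / 2 ^ q = 0 := by rw [h]; exact Nat.div_eq_of_lt hs
      have h2 : (b ^^^ c) % 2 ^ q = s := by rw [h]; exact Nat.mod_eq_of_lt hs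
      rw [Nat.xor_div_two_pow] at h1
      rw [Nat.xor_mod_two_pow] at h2
      exact ⟨Nat.xor_eq_zero_iff.1 h1, h2⟩
    · rintro ⟨h1, h2⟩
      rw [← Nat.div_add_mod (b ^^^ c) (2 ^ q), Nat.xor_div_two_pow, Nat.xor_mod_two_pow, h1, h2]
      simp
  rw [key, key b c]
  have hq : 0 < 2 ^ q := by positivity
  rw [Nat.add_mul_div_left _ _ hq, Nat.add_mul_div_left _ _ hq, Nat.add_mul_mod_self_left,
    Nat.add_mul_mod_self_left]
  constructor
  · rintro ⟨h1, h2⟩; exact ⟨by omega, h2⟩
  · rintro ⟨h1, h2⟩; exact ⟨by omega, h2⟩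

/-- cells that cannot be P-positions for reasons not involving the two free heaps -/
def Blocked {m : ℕ} (r : Fin m → ℕ) (b c : ℕ) : Prop :=
  b ^^^ c = nimSum r ∨
    ∃ a ∈ (Finset.univ.sigma fun i : Fin m => Finset.range (r i)),
      PPos (withTwo b c (Function.update r a.1 a.2), true)

theorem main {m : ℕ} (r : Fin m → ℕ) :
    Greedy (fun b c => PPos (withTwo b c r, true)) (Blocked r) (1 + ∑ i, r i) ∧
    ∃ p : ℕ, 0 < p ∧ ∃ N : ℕ, ∀ b c, N ≤ b →
      (PPos (withTwo (b + p) (c + p) r, true) ↔ PPos (withTwo b c r, true)) := by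
  classical
  induction hk : (∑ i, r i) using Nat.strong_induction_on generalizing r with
  | _ k ih =>
    have ih' : ∀ i v, v < r i →
        Greedy (fun b c => PPos (withTwo b c (Function.update r i v), true))
          (Blocked (Function.update r i v)) (1 + ∑ j, Function.update r i v j) ∧
        ∃ p : ℕ, 0 < p ∧ ∃ N : ℕ, ∀ b c, N ≤ b →
          (PPos (withTwo (b + p) (c + p) (Function.update r i v), true) ↔
            PPos (withTwo b c (Function.update r i v), true)) := by
      intro i v hv
      have := ih (∑ j, Function.update r i v j) (by rw [← hk]; exact sum_update_lt r i v hv)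
        (Function.update r i v) rfl
      exact this
    have hgreedy : Greedy (fun b c => PPos (withTwo b c r, true)) (Blocked r) (1 + k) := by
      refine ⟨?_, ?_, ?_, ?_⟩
      · intro b c hbc
        show PPos (withTwo b c r, true) ↔ _
        rw [withTwo_rec]
        have e1 : ((b ≠ 0 ∨ c ≠ 0 ∨ ∃ i, r i ≠ 0) → b ^^^ (c ^^^ nimSum r) ≠ 0) ↔
            ¬ (b ^^^ c = nimSum r) := by
          have : b ^^^ (c ^^^ nimSum r) = (b ^^^ c) ^^^ nimSum r := by ac_rfl
          rw [this]
          constructor
          · intro h h'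
            exact h (by tauto) (Nat.xor_eq_zero_iff.2 h')
          · intro h _ h'
            exact h (Nat.xor_eq_zero_iff.1 h')
        rw [e1]
        unfold Blocked
        constructor
        · rintro ⟨h1, h2, h3, h4⟩
          refine ⟨?_, h2, h3⟩
          rintro (h5 | ⟨⟨i, v⟩, h5, h6⟩)
          · exact h1 h5
          · simp only [Finset.mem_sigma, Finset.mem_univ, Finset.mem_range, true_and] at h5
            exact h4 i v h5 h6
        · rintro ⟨h1, h2, h3⟩
          refine ⟨fun h => h1 (Or.inl h), h2, h3, ?_⟩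
          intro i v hv hP
          exact h1 (Or.inr ⟨⟨i, v⟩, by simp [hv], hP⟩)
      · intro h0
        change ¬ PPos (withTwo 0 0 r, true) at h0
        rw [withTwo_rec] at h0
        unfold Blocked
        by_contra hcon
        push Not at hcon
        obtain ⟨g1, g2⟩ := hcon
        apply h0
        refine ⟨fun _ => ?_, fun v hv => absurd hv (by omega), fun v hv => absurd hv (by omega), ?_⟩
        · intro h'
          apply g1
          simpa [eq_comm] using h'
        · intro i v hv hP
          exact g2 ⟨i, v⟩ (by simp [hv]) hP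
      · intro b c
        unfold Blocked
        rw [Nat.xor_comm b c]
        constructor
        · rintro (h | ⟨⟨i, v⟩, h5, h6⟩)
          · exact Or.inl h
          · have h5' := h5
            simp only [Finset.mem_sigma, Finset.mem_univ, Finset.mem_range, true_and] at h5'
            exact Or.inr ⟨⟨i, v⟩, h5, ((ih' i v h5').1.F_symm b c).1 h6⟩
        · rintro (h | ⟨⟨i, v⟩, h5, h6⟩)
          · exact Or.inl h
          · have h5' := h5
            simp only [Finset.mem_sigma, Finset.mem_univ, Finset.mem_range, true_and] at h5'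
            exact Or.inr ⟨⟨i, v⟩, h5, ((ih' i v h5').1.F_symm b c).2 h6⟩
      · intro b S hS
        let g : (Σ _ : Fin m, ℕ) → ℕ := fun a =>
          if h : ∃ c, PPos (withTwo b c (Function.update r a.1 a.2), true) then h.choose else 0
        have hsub : S ⊆ insert (b ^^^ nimSum r)
            ((Finset.univ.sigma fun i : Fin m => Finset.range (r i)).image g) := by
          intro c hc
          rcases hS c hc with h | ⟨⟨i, v⟩, h5, h6⟩
          · apply Finset.mem_insert.2
            left
            rw [← h]
            have : b ^^^ (b ^^^ c) = (b ^^^ b) ^^^ c := by ac_rfl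
            rw [this]; simp
          · apply Finset.mem_insert.2
            right
            apply Finset.mem_image.2
            refine ⟨⟨i, v⟩, h5, ?_⟩
            have h5' := h5
            simp only [Finset.mem_sigma, Finset.mem_univ, Finset.mem_range, true_and] at h5'
            have hex : ∃ c, PPos (withTwo b c (Function.update r i v), true) := ⟨c, h6⟩
            have : g ⟨i, v⟩ = hex.choose := by
              simp only [g]
              exact dif_pos hex
            rw [this]
            exact (ih' i v h5').1.row_unique hex.choose_spec h6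
        have h1 := (Finset.card_le_card hsub).trans (Finset.card_insert_le _ _)
        have h2 : ((Finset.univ.sigma fun i : Fin m => Finset.range (r i)).image g).card ≤ k := by
          refine Finset.card_image_le.trans ?_
          rw [Finset.card_sigma]
          simp only [Finset.card_range]
          exact hk.le
        omega
    refine ⟨hgreedy, hgreedy.evPer ?_⟩
    have hq : ∃ q, nimSum r < 2 ^ q := ⟨nimSum r, Nat.lt_two_pow_self⟩
    obtain ⟨q, hq⟩ := hq
    refine EvPer.or ⟨2 ^ q, by positivity, 0, fun b c _ _ => ?_⟩ (EvPer.finset _ _ ?_)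
    · have := xor_shift q 1 b c (nimSum r) hq
      rwa [mul_one] at this
    · rintro ⟨i, v⟩ h5
      simp only [Finset.mem_sigma, Finset.mem_univ, Finset.mem_range, true_and] at h5
      obtain ⟨p, hp, N, hN⟩ := (ih' i v h5).2
      exact ⟨p, hp, N, fun b c hb _ => hN b c hb⟩

end Pool.Agent.NimPass
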