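import Mathlib

/-! The explicit predicate for heaps of size at most 5, and its recursion. -/

namespace Pool.Agent.NimPass

/-- The position has nim-sum 1, in terms of the numbers `a, b, c, d, e` of heaps
of sizes `1, 2, 3, 4, 5`. -/
def Rule5 (a b c d e : ℕ) : Prop := (a + c + e) % 2 = 1 ∧ (b + c) % 2 = 0 ∧ (d + e) % 2 = 0

/-- The explicit list of P-positions in terms of the numbers `a, b, c, d, e` of heaps
of sizes `1, 2, 3, 4, 5`. -/
def Q5 (a b c d e : ℕ) : Prop :=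
  if a = 0 ∧ c = 0 ∧ e = 0 then
    (b = 0 ∧ (d = 0 ∨ (7 ≤ d ∧ d % 6 = 1))) ∨ (3 ≤ b ∧ b % 2 = 1 ∧ d + 3 = b)
  else if a = 1 ∧ c = 0 ∧ e = 0 then
    (b ≤ d + 2 ∧ d % 3 = (b + 2) % 3) ∨ (d + 2 < b ∧ b % 2 = 0 ∧ d % 2 = 0)
  else if a = 0 ∧ c = 1 ∧ e = 0 then
    (b = 0 ∧ (d = 1 ∨ d % 6 = 4)) ∨
    (b % 2 = 1 ∧ ((b ≤ d + 3 ∧ d % 3 = (b + 1) % 3) ∨ (d + 3 < b ∧ d % 2 = 0))) ∨
    (2 ≤ b ∧ b % 2 = 0 ∧ b + 1 ≤ d ∧ d % 3 = (b + 1) % 3)
  else if a = 0 ∧ c = 0 ∧ e = 1 then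
    (b = 0 ∧ d % 6 = 3) ∨ (b = 1 ∧ 4 ≤ d ∧ d % 3 = 1) ∨
    (2 ≤ b ∧ b % 2 = 0 ∧ ((b ≤ d + 1 ∧ d % 3 = b % 3) ∨ (d + 1 < b ∧ d % 2 = 1))) ∨
    (3 ≤ b ∧ b % 2 = 1 ∧ b ≤ d ∧ d % 3 = b % 3)
  else if a = 0 ∧ c = 0 ∧ e = 2 then b = 1 ∧ d = 1
  else if a = 0 ∧ c = 1 ∧ e = 1 then b = 1 ∧ d = 0
  else if a = 0 ∧ c = 0 ∧ e = 3 then Rule5 a b c d e ∧ ¬ (b = 0 ∧ d = 1)
  else if a = 0 ∧ c = 1 ∧ e = 2 then Rule5 a b c d e ∧ ¬ (b = 1 ∧ d = 0)
  else if a = 0 ∧ c = 1 ∧ e = 3 ∧ b = 0 ∧ d = 0 then True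
  else Rule5 a b c d e

/-- The recursion which the predicate satisfies. -/
def Rec5 (Q : ℕ → ℕ → ℕ → ℕ → ℕ → Prop) (a b c d e : ℕ) : Prop :=
  (a + b + c + d + e ≠ 0 → ¬ ((a + c + e) % 2 = 0 ∧ (b + c) % 2 = 0 ∧ (d + e) % 2 = 0)) ∧
  (1 ≤ a → ¬ Q (a - 1) b c d e) ∧
  (1 ≤ b → ¬ Q a (b - 1) c d e ∧ ¬ Q (a + 1) (b - 1) c d e) ∧
  (1 ≤ c → ¬ Q a b (c - 1) d e ∧ ¬ Q (a + 1) b (c - 1) d e ∧ ¬ Q a (b + 1) (c - 1) d e) ∧
  (1 ≤ d → ¬ Q a b c (d - 1) e ∧ ¬ Q (a + 1) b c (d - 1) e ∧ ¬ Q a (b + 1) c (d - 1) e ∧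
    ¬ Q a b (c + 1) (d - 1) e) ∧
  (1 ≤ e → ¬ Q a b c d (e - 1) ∧ ¬ Q (a + 1) b c d (e - 1) ∧ ¬ Q a (b + 1) c d (e - 1) ∧
    ¬ Q a b (c + 1) d (e - 1) ∧ ¬ Q a b c (d + 1) (e - 1))

theorem Q5_shift_both (a c e : ℕ) {b d : ℕ} (hb : 3 ≤ b) :
    Q5 a (b + 6) c (d + 6) e ↔ Q5 a b c d e := by
  have e1 : (b + 6) % 2 = b % 2 := by omega
  have e2 : (b + 6) % 3 = b % 3 := by omega
  have e3 : (b + 6 + 1) % 3 = (b + 1) % 3 := by omega
  have e4 : (b + 6 + 2) % 3 = (b + 2) % 3 := by omega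
  have e5 : (d + 6) % 6 = d % 6 := by omega
  have e6 : (d + 6) % 3 = d % 3 := by omega
  have e7 : (d + 6) % 2 = d % 2 := by omega
  have e8 : (b + 6 + c) % 2 = (b + c) % 2 := by omega
  have e9 : (d + 6 + e) % 2 = (d + e) % 2 := by omega
  have c1 : (b + 6 ≤ d + 6 + 2) ↔ (b ≤ d + 2) := by omega
  have c2 : (d + 6 + 2 < b + 6) ↔ (d + 2 < b) := by omega
  have c3 : (b + 6 ≤ d + 6 + 3) ↔ (b ≤ d + 3) := by omega
  have c4 : (d + 6 + 3 < b + 6) ↔ (d + 3 < b) := by omega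
  have c5 : (b + 6 + 1 ≤ d + 6) ↔ (b + 1 ≤ d) := by omega
  have c6 : (b + 6 ≤ d + 6 + 1) ↔ (b ≤ d + 1) := by omega
  have c7 : (d + 6 + 1 < b + 6) ↔ (d + 1 < b) := by omega
  have c8 : (b + 6 ≤ d + 6) ↔ (b ≤ d) := by omega
  have c9 : (d + 6 + 3 = b + 6) ↔ (d + 3 = b) := by omega
  have f1 : (b + 6 = 0) ↔ False := iff_false_intro (by omega)
  have f2 : (b = 0) ↔ False := iff_false_intro (by omega)
  have f3 : (b + 6 = 1) ↔ False := iff_false_intro (by omega)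
  have f4 : (b = 1) ↔ False := iff_false_intro (by omega)
  have f5 : (2 ≤ b + 6) ↔ True := iff_true_intro (by omega)
  have f6 : (2 ≤ b) ↔ True := iff_true_intro (by omega)
  have f7 : (3 ≤ b + 6) ↔ True := iff_true_intro (by omega)
  have f8 : (3 ≤ b) ↔ True := iff_true_intro (by omega)
  unfold Q5 Rule5
  simp only [e1, e2, e3, e4, e5, e6, e7, e8, e9, c1, c2, c3, c4, c5, c6, c7, c8, c9, f1, f2, f3,
    f4, f5, f6, f7, f8, false_and, and_false, false_or, true_and]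

theorem Q5_shift_d (a c e : ℕ) {b d : ℕ} (hd : 7 ≤ d) (hbd : b + 2 ≤ d) :
    Q5 a b c (d + 6) e ↔ Q5 a b c d e := by
  have e5 : (d + 6) % 6 = d % 6 := by omega
  have e6 : (d + 6) % 3 = d % 3 := by omega
  have e7 : (d + 6) % 2 = d % 2 := by omega
  have e9 : (d + 6 + e) % 2 = (d + e) % 2 := by omega
  have c1 : (b ≤ d + 6 + 2) ↔ True := iff_true_intro (by omega)
  have c1' : (b ≤ d + 2) ↔ True := iff_true_intro (by omega)
  have c2 : (d + 6 + 2 < b) ↔ False := iff_false_intro (by omega)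
  have c2' : (d + 2 < b) ↔ False := iff_false_intro (by omega)
  have c3 : (b ≤ d + 6 + 3) ↔ True := iff_true_intro (by omega)
  have c3' : (b ≤ d + 3) ↔ True := iff_true_intro (by omega)
  have c4 : (d + 6 + 3 < b) ↔ False := iff_false_intro (by omega)
  have c4' : (d + 3 < b) ↔ False := iff_false_intro (by omega)
  have c5 : (b + 1 ≤ d + 6) ↔ True := iff_true_intro (by omega)
  have c5' : (b + 1 ≤ d) ↔ True := iff_true_intro (by omega)
  have c6 : (b ≤ d + 6 + 1) ↔ True := iff_true_intro (by omega)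
  have c6' : (b ≤ d + 1) ↔ True := iff_true_intro (by omega)
  have c7 : (d + 6 + 1 < b) ↔ False := iff_false_intro (by omega)
  have c7' : (d + 1 < b) ↔ False := iff_false_intro (by omega)
  have c8 : (b ≤ d + 6) ↔ True := iff_true_intro (by omega)
  have c8' : (b ≤ d) ↔ True := iff_true_intro (by omega)
  have c9 : (d + 6 + 3 = b) ↔ False := iff_false_intro (by omega)
  have c9' : (d + 3 = b) ↔ False := iff_false_intro (by omega)
  have f1 : (d + 6 = 0) ↔ False := iff_false_intro (by omega)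
  have f2 : (d = 0) ↔ False := iff_false_intro (by omega)
  have f3 : (d + 6 = 1) ↔ False := iff_false_intro (by omega)
  have f4 : (d = 1) ↔ False := iff_false_intro (by omega)
  have f5 : (7 ≤ d + 6) ↔ True := iff_true_intro (by omega)
  have f6 : (7 ≤ d) ↔ True := iff_true_intro (by omega)
  have f7 : (4 ≤ d + 6) ↔ True := iff_true_intro (by omega)
  have f8 : (4 ≤ d) ↔ True := iff_true_intro (by omega)
  unfold Q5 Rule5
  simp only [e5, e6, e7, e9, c1, c2, c3, c4, c5, c6, c7, c8, c9, c1', c2', c3', c4', c5', c6', c7',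
    c8', c9', f1, f2, f3,
    f4, f5, f6, f7, f8, false_and, and_false, false_or, true_and]

theorem Q5_shift_b (a c e : ℕ) {b d : ℕ} (hb : d + 4 ≤ b) :
    Q5 a (b + 6) c d e ↔ Q5 a b c d e := by
  have e1 : (b + 6) % 2 = b % 2 := by omega
  have e8 : (b + 6 + c) % 2 = (b + c) % 2 := by omega
  have c1 : (b + 6 ≤ d + 2) ↔ False := iff_false_intro (by omega)
  have c1' : (b ≤ d + 2) ↔ False := iff_false_intro (by omega)
  have c2 : (d + 2 < b + 6) ↔ True := iff_true_intro (by omega)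
  have c2' : (d + 2 < b) ↔ True := iff_true_intro (by omega)
  have c3 : (b + 6 ≤ d + 3) ↔ False := iff_false_intro (by omega)
  have c3' : (b ≤ d + 3) ↔ False := iff_false_intro (by omega)
  have c4 : (d + 3 < b + 6) ↔ True := iff_true_intro (by omega)
  have c4' : (d + 3 < b) ↔ True := iff_true_intro (by omega)
  have c5 : (b + 6 + 1 ≤ d) ↔ False := iff_false_intro (by omega)
  have c5' : (b + 1 ≤ d) ↔ False := iff_false_intro (by omega)
  have c6 : (b + 6 ≤ d + 1) ↔ False := iff_false_intro (by omega)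
  have c6' : (b ≤ d + 1) ↔ False := iff_false_intro (by omega)
  have c7 : (d + 1 < b + 6) ↔ True := iff_true_intro (by omega)
  have c7' : (d + 1 < b) ↔ True := iff_true_intro (by omega)
  have c8 : (b + 6 ≤ d) ↔ False := iff_false_intro (by omega)
  have c8' : (b ≤ d) ↔ False := iff_false_intro (by omega)
  have c9 : (d + 3 = b + 6) ↔ False := iff_false_intro (by omega)
  have c9' : (d + 3 = b) ↔ False := iff_false_intro (by omega)
  have f1 : (b + 6 = 0) ↔ False := iff_false_intro (by omega)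
  have f2 : (b = 0) ↔ False := iff_false_intro (by omega)
  have f3 : (b + 6 = 1) ↔ False := iff_false_intro (by omega)
  have f4 : (b = 1) ↔ False := iff_false_intro (by omega)
  have f5 : (2 ≤ b + 6) ↔ True := iff_true_intro (by omega)
  have f6 : (2 ≤ b) ↔ True := iff_true_intro (by omega)
  have f7 : (3 ≤ b + 6) ↔ True := iff_true_intro (by omega)
  have f8 : (3 ≤ b) ↔ True := iff_true_intro (by omega)
  unfold Q5 Rule5
  simp only [e1, e8, c1, c2, c3, c4, c5, c6, c7, c8, c9, c1', c2', c3', c4', c5', c6', c7',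
    c8', c9', f1, f2, f3,
    f4, f5, f6, f7, f8, false_and, and_false, false_or, true_and]

end Pool.Agent.NimPass
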