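import Pool.Agent.NimPass.Q5

/-! Finite check of the recursion for the explicit predicate. -/

namespace Pool.Agent.NimPass

/-- Boolean form of `Rule5`. -/
def r5 (a b c d e : ℕ) : Bool :=
  Nat.beq ((a + c + e) % 2) 1 && (Nat.beq ((b + c) % 2) 0 && Nat.beq ((d + e) % 2) 0)

/-- Boolean form of `Q5`. -/
def q5 (a b c d e : ℕ) : Bool :=
  bif Nat.beq a 0 && (Nat.beq c 0 && Nat.beq e 0) then
    (Nat.beq b 0 && (Nat.beq d 0 || (Nat.ble 7 d && Nat.beq (d % 6) 1))) ||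
      (Nat.ble 3 b && (Nat.beq (b % 2) 1 && Nat.beq (d + 3) b))
  else bif Nat.beq a 1 && (Nat.beq c 0 && Nat.beq e 0) then
    (Nat.ble b (d + 2) && Nat.beq (d % 3) ((b + 2) % 3)) ||
      (Nat.ble (d + 3) b && (Nat.beq (b % 2) 0 && Nat.beq (d % 2) 0))
  else bif Nat.beq a 0 && (Nat.beq c 1 && Nat.beq e 0) then
    (Nat.beq b 0 && (Nat.beq d 1 || Nat.beq (d % 6) 4)) ||
    ((Nat.beq (b % 2) 1 && ((Nat.ble b (d + 3) && Nat.beq (d % 3) ((b + 1) % 3)) ||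
      (Nat.ble (d + 4) b && Nat.beq (d % 2) 0))) ||
    (Nat.ble 2 b && (Nat.beq (b % 2) 0 && (Nat.ble (b + 1) d && Nat.beq (d % 3) ((b + 1) % 3)))))
  else bif Nat.beq a 0 && (Nat.beq c 0 && Nat.beq e 1) then
    (Nat.beq b 0 && Nat.beq (d % 6) 3) ||
    ((Nat.beq b 1 && (Nat.ble 4 d && Nat.beq (d % 3) 1)) ||
    ((Nat.ble 2 b && (Nat.beq (b % 2) 0 && ((Nat.ble b (d + 1) && Nat.beq (d % 3) (b % 3)) ||
      (Nat.ble (d + 2) b && Nat.beq (d % 2) 1)))) ||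
    (Nat.ble 3 b && (Nat.beq (b % 2) 1 && (Nat.ble b d && Nat.beq (d % 3) (b % 3))))))
  else bif Nat.beq a 0 && (Nat.beq c 0 && Nat.beq e 2) then Nat.beq b 1 && Nat.beq d 1
  else bif Nat.beq a 0 && (Nat.beq c 1 && Nat.beq e 1) then Nat.beq b 1 && Nat.beq d 0
  else bif Nat.beq a 0 && (Nat.beq c 0 && Nat.beq e 3) then
    r5 a b c d e && !(Nat.beq b 0 && Nat.beq d 1)
  else bif Nat.beq a 0 && (Nat.beq c 1 && Nat.beq e 2) then
    r5 a b c d e && !(Nat.beq b 1 && Nat.beq d 0)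
  else bif Nat.beq a 0 && (Nat.beq c 1 && (Nat.beq e 3 && (Nat.beq b 0 && Nat.beq d 0))) then true
  else r5 a b c d e

/-- Boolean form of the recursion. -/
def rec5 (a b c d e : ℕ) : Bool :=
  (!(Nat.ble 1 (a + b + c + d + e)) || !(Nat.beq ((a + c + e) % 2) 0 &&
    (Nat.beq ((b + c) % 2) 0 && Nat.beq ((d + e) % 2) 0))) &&
  ((!(Nat.ble 1 a) || !(q5 (a - 1) b c d e)) &&
  ((!(Nat.ble 1 b) || (!(q5 a (b - 1) c d e) && !(q5 (a + 1) (b - 1) c d e))) &&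
  ((!(Nat.ble 1 c) || (!(q5 a b (c - 1) d e) && (!(q5 (a + 1) b (c - 1) d e) &&
    !(q5 a (b + 1) (c - 1) d e)))) &&
  ((!(Nat.ble 1 d) || (!(q5 a b c (d - 1) e) && (!(q5 (a + 1) b c (d - 1) e) &&
    (!(q5 a (b + 1) c (d - 1) e) && !(q5 a b (c + 1) (d - 1) e))))) &&
  (!(Nat.ble 1 e) || (!(q5 a b c d (e - 1)) && (!(q5 (a + 1) b c d (e - 1)) &&
    (!(q5 a (b + 1) c d (e - 1)) && (!(q5 a b (c + 1) d (e - 1)) &&
    !(q5 a b c (d + 1) (e - 1)))))))))))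

theorem r5_iff (a b c d e : ℕ) : r5 a b c d e = true ↔ Rule5 a b c d e := by
  simp [r5, Rule5]

theorem bif_true (c x y : Bool) :
    ((bif c then x else y) = true) ↔ ((c = true ∧ x = true) ∨ (¬ c = true ∧ y = true)) := by
  cases c <;> simp

theorem if_prop {C : Prop} [Decidable C] (X Y : Prop) :
    (if C then X else Y) ↔ ((C ∧ X) ∨ (¬ C ∧ Y)) := by
  split_ifs with h <;> simp [h]

theorem not_bool (x : Bool) : ((!x) = true) ↔ ¬ (x = true) := by cases x <;> simp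

theorem q5_iff (a b c d e : ℕ) : q5 a b c d e = true ↔ Q5 a b c d e := by
  have h1 : (d + 2 < b) ↔ (d + 3 ≤ b) := Iff.rfl
  have h2 : (d + 3 < b) ↔ (d + 4 ≤ b) := Iff.rfl
  have h3 : (d + 1 < b) ↔ (d + 2 ≤ b) := Iff.rfl
  unfold q5 Q5
  rw [h1, h2, h3]
  simp only [bif_true, if_prop, Bool.and_eq_true, Bool.or_eq_true, Nat.beq_eq, Nat.ble_eq,
    not_bool, r5_iff]

/-- The numbers of odd heaps for which the recursion involves an exceptional position. -/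
def oddList : List (ℕ × ℕ × ℕ) :=
  [(0, 0, 0), (0, 0, 1), (0, 0, 2), (0, 0, 3), (0, 0, 4), (0, 1, 0), (0, 1, 1), (0, 1, 2),
   (0, 1, 3), (0, 1, 4), (0, 2, 0), (0, 2, 1), (0, 2, 2), (0, 2, 3), (1, 0, 0), (1, 0, 1),
   (1, 0, 2), (1, 0, 3), (1, 1, 0), (1, 1, 1), (1, 1, 2), (1, 1, 3), (2, 0, 0)]

/-- one cell -/
def cell (b d : ℕ) : Bool :=
  oddList.all fun t => (q5 t.1 b t.2.1 d t.2.2) == (rec5 t.1 b t.2.1 d t.2.2)

end Pool.Agent.NimPass
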