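import Pool.Agent.NimPass.Q5Run

/-! The recursion for the explicit predicate, for all arguments. -/

namespace Pool.Agent.NimPass

theorem rec5_iff (a b c d e : ℕ) : rec5 a b c d e = true ↔ Rec5 Q5 a b c d e := by
  have h1 : (a + b + c + d + e ≠ 0) ↔ (1 ≤ a + b + c + d + e) := by omega
  unfold rec5 Rec5
  rw [h1]
  simp only [Bool.and_eq_true, Bool.or_eq_true, Nat.beq_eq, Nat.ble_eq,
    not_bool, q5_iff, imp_iff_not_or]

theorem cell_iff {b d : ℕ} (h : cell b d = true) {a c e : ℕ} (ht : (a, c, e) ∈ oddList) :
    Q5 a b c d e ↔ Rec5 Q5 a b c d e := by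
  unfold cell at h
  rw [List.all_eq_true] at h
  have := h _ ht
  simp only [beq_iff_eq] at this
  rw [← q5_iff, ← rec5_iff, this]

theorem Q5_small {b d : ℕ} (h : (b < 10 ∧ d < max 14 (b + 10)) ∨ (10 ≤ b ∧ d < 7 ∧ b < d + 11))
    {a c e : ℕ} (ht : (a, c, e) ∈ oddList) : Q5 a b c d e ↔ Rec5 Q5 a b c d e := by
  rcases h with ⟨h1, h2⟩ | ⟨h1, h2, h3⟩
  · have := chk1
    rw [List.all_eq_true] at this
    have := this b (List.mem_range.2 h1)
    rw [List.all_eq_true] at this
    exact cell_iff (this d (List.mem_range.2 h2)) ht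
  · have := chk2
    rw [List.all_eq_true] at this
    have := this d (List.mem_range.2 h2)
    rw [List.all_eq_true] at this
    have := this (b - 10) (List.mem_range.2 (by omega))
    rw [show 10 + (b - 10) = b by omega] at this
    exact cell_iff this ht

theorem Q5_rec_list (a c e : ℕ) (ht : (a, c, e) ∈ oddList) :
    ∀ (k b d : ℕ), b + d ≤ k → (Q5 a b c d e ↔ Rec5 Q5 a b c d e) := by
  intro k
  induction k with
  | zero => intro b d h; exact Q5_small (by left; omega) ht
  | succ k ih =>
    intro b d h
    by_cases hs : (b < 10 ∧ d < max 14 (b + 10)) ∨ (10 ≤ b ∧ d < 7 ∧ b < d + 11)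
    · exact Q5_small hs ht
    by_cases hb : b < 10
    · -- reduce d by 6
      have hd : 14 ≤ d ∧ b + 10 ≤ d := by omega
      obtain ⟨D, rfl⟩ : ∃ D, d = D + 6 := ⟨d - 6, by omega⟩
      have hD : 8 ≤ D ∧ b + 4 ≤ D := by omega
      have := ih b D (by omega)
      rw [Q5_shift_d a c e (by omega) (by omega), this]
      unfold Rec5
      have e1 : (D + 6 + e) % 2 = (D + e) % 2 := by omega
      have e2 : a + b + c + (D + 6) + e ≠ 0 ↔ a + b + c + D + e ≠ 0 := by omega
      have e3 : 1 ≤ D + 6 ↔ 1 ≤ D := by omega
      have e4 : D + 6 - 1 = (D - 1) + 6 := by omega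
      have e5 : D + 6 + 1 = (D + 1) + 6 := by omega
      rw [e1, e2, e3, e4, e5]
      rw [Q5_shift_d (a - 1) c e (b := b) (d := D) (by omega) (by omega),
        Q5_shift_d a c e (b := b - 1) (d := D) (by omega) (by omega),
        Q5_shift_d (a + 1) c e (b := b - 1) (d := D) (by omega) (by omega),
        Q5_shift_d a (c - 1) e (b := b) (d := D) (by omega) (by omega),
        Q5_shift_d (a + 1) (c - 1) e (b := b) (d := D) (by omega) (by omega),
        Q5_shift_d a (c - 1) e (b := b + 1) (d := D) (by omega) (by omega),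
        Q5_shift_d a c e (b := b) (d := D - 1) (by omega) (by omega),
        Q5_shift_d (a + 1) c e (b := b) (d := D - 1) (by omega) (by omega),
        Q5_shift_d a c e (b := b + 1) (d := D - 1) (by omega) (by omega),
        Q5_shift_d a (c + 1) e (b := b) (d := D - 1) (by omega) (by omega),
        Q5_shift_d a c (e - 1) (b := b) (d := D) (by omega) (by omega),
        Q5_shift_d (a + 1) c (e - 1) (b := b) (d := D) (by omega) (by omega),
        Q5_shift_d a c (e - 1) (b := b + 1) (d := D) (by omega) (by omega),
        Q5_shift_d a (c + 1) (e - 1) (b := b) (d := D) (by omega) (by omega),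
        Q5_shift_d a c (e - 1) (b := b) (d := D + 1) (by omega) (by omega)]
    · by_cases hd : d < 7
      · -- reduce b by 6
        obtain ⟨B, rfl⟩ : ∃ B, b = B + 6 := ⟨b - 6, by omega⟩
        have hB : d + 5 ≤ B := by omega
        have := ih B d (by omega)
        rw [Q5_shift_b a c e (by omega), this]
        unfold Rec5
        have e1 : (B + 6 + c) % 2 = (B + c) % 2 := by omega
        have e2 : a + (B + 6) + c + d + e ≠ 0 ↔ a + B + c + d + e ≠ 0 := by omega
        have e3 : 1 ≤ B + 6 ↔ 1 ≤ B := by omega
        have e4 : B + 6 - 1 = (B - 1) + 6 := by omega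
        have e5 : B + 6 + 1 = (B + 1) + 6 := by omega
        rw [e1, e2, e3, e4, e5]
        rw [Q5_shift_b (a - 1) c e (b := B) (d := d) (by omega),
          Q5_shift_b a c e (b := B - 1) (d := d) (by omega),
          Q5_shift_b (a + 1) c e (b := B - 1) (d := d) (by omega),
          Q5_shift_b a (c - 1) e (b := B) (d := d) (by omega),
          Q5_shift_b (a + 1) (c - 1) e (b := B) (d := d) (by omega),
          Q5_shift_b a (c - 1) e (b := B + 1) (d := d) (by omega),
          Q5_shift_b a c e (b := B) (d := d - 1) (by omega),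
          Q5_shift_b (a + 1) c e (b := B) (d := d - 1) (by omega),
          Q5_shift_b a c e (b := B + 1) (d := d - 1) (by omega),
          Q5_shift_b a (c + 1) e (b := B) (d := d - 1) (by omega),
          Q5_shift_b a c (e - 1) (b := B) (d := d) (by omega),
          Q5_shift_b (a + 1) c (e - 1) (b := B) (d := d) (by omega),
          Q5_shift_b a c (e - 1) (b := B + 1) (d := d) (by omega),
          Q5_shift_b a (c + 1) (e - 1) (b := B) (d := d) (by omega),
          Q5_shift_b a c (e - 1) (b := B) (d := d + 1) (by omega)]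
      · -- reduce both
        obtain ⟨B, rfl⟩ : ∃ B, b = B + 6 := ⟨b - 6, by omega⟩
        obtain ⟨D, rfl⟩ : ∃ D, d = D + 6 := ⟨d - 6, by omega⟩
        have hB : 4 ≤ B := by omega
        have hD : 1 ≤ D := by omega
        have := ih B D (by omega)
        rw [Q5_shift_both a c e (by omega), this]
        unfold Rec5
        have e1 : (B + 6 + c) % 2 = (B + c) % 2 := by omega
        have e1' : (D + 6 + e) % 2 = (D + e) % 2 := by omega
        have e2 : a + (B + 6) + c + (D + 6) + e ≠ 0 ↔ a + B + c + D + e ≠ 0 := by omega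
        have e3 : 1 ≤ B + 6 ↔ 1 ≤ B := by omega
        have e3' : 1 ≤ D + 6 ↔ 1 ≤ D := by omega
        have e4 : B + 6 - 1 = (B - 1) + 6 := by omega
        have e5 : B + 6 + 1 = (B + 1) + 6 := by omega
        have e6 : D + 6 - 1 = (D - 1) + 6 := by omega
        have e7 : D + 6 + 1 = (D + 1) + 6 := by omega
        rw [e1, e1', e2, e3, e3', e4, e5, e6, e7]
        rw [Q5_shift_both (a - 1) c e (b := B) (d := D) (by omega),
          Q5_shift_both a c e (b := B - 1) (d := D) (by omega),
          Q5_shift_both (a + 1) c e (b := B - 1) (d := D) (by omega),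
          Q5_shift_both a (c - 1) e (b := B) (d := D) (by omega),
          Q5_shift_both (a + 1) (c - 1) e (b := B) (d := D) (by omega),
          Q5_shift_both a (c - 1) e (b := B + 1) (d := D) (by omega),
          Q5_shift_both a c e (b := B) (d := D - 1) (by omega),
          Q5_shift_both (a + 1) c e (b := B) (d := D - 1) (by omega),
          Q5_shift_both a c e (b := B + 1) (d := D - 1) (by omega),
          Q5_shift_both a (c + 1) e (b := B) (d := D - 1) (by omega),
          Q5_shift_both a c (e - 1) (b := B) (d := D) (by omega),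
          Q5_shift_both (a + 1) c (e - 1) (b := B) (d := D) (by omega),
          Q5_shift_both a c (e - 1) (b := B + 1) (d := D) (by omega),
          Q5_shift_both a (c + 1) (e - 1) (b := B) (d := D) (by omega),
          Q5_shift_both a c (e - 1) (b := B) (d := D + 1) (by omega)]


end Pool.Agent.NimPass
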