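import Pool.Agent.NimPass.Q5Check

/-! The finite check itself. -/

namespace Pool.Agent.NimPass

theorem chk1 : ((List.range 10).all fun b => (List.range (max 14 (b + 10))).all fun d =>
    cell b d) = true := by decide +kernel

theorem chk2 : ((List.range 7).all fun d => (List.range (d + 1)).all fun k =>
    cell (10 + k) d) = true := by decide +kernel

end Pool.Agent.NimPass
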