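import Pool.Agent.NimPass.Basic

/-! Two disjoint groups of heaps of nim-sum 1 force the nim-sum rule. -/

namespace Pool.Agent.NimPass

private theorem union_tbl {n : ℕ} (I J : Finset (Fin n)) (hIJ : Disjoint I J) (h : Fin n → ℕ) :
    nimSumOn (I ∪ J) h = nimSumOn I h ^^^ nimSumOn J h := by
  induction I using Finset.induction_on with
  | empty => simp [nimSumOn_empty]
  | insert a s ha ih =>
    have hd : Disjoint s J := Finset.disjoint_of_subset_left (Finset.subset_insert a s) hIJ
    have haJ : a ∉ J := Finset.disjoint_left.1 hIJ (Finset.mem_insert_self a s)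
    have ha' : a ∉ s ∪ J := by simp [ha, haJ]
    rw [Finset.insert_union, nimSumOn_insert ha', nimSumOn_insert ha, ih hd, Nat.xor_assoc]

private theorem exists_ne_tbl {n : ℕ} (I : Finset (Fin n)) (h : Fin n → ℕ)
    (hI : nimSumOn I h ≠ 0) : ∃ i ∈ I, h i ≠ 0 := by
  by_contra hne
  apply hI
  induction I using Finset.induction_on with
  | empty => rfl
  | insert a s ha ih =>
    have h0 : h a = 0 := by
      by_contra h1
      exact hne ⟨a, Finset.mem_insert_self a s, h1⟩
    rw [nimSumOn_insert ha, h0, Nat.zero_xor]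
    by_contra h2
    apply h2
    exact ih h2 (fun ⟨i, hi, h1⟩ => hne ⟨i, Finset.mem_insert_of_mem hi, h1⟩)

private theorem xor_ne_one_tbl {x v : ℕ} (hv : v < x) : 1 ^^^ x ^^^ v ≠ 1 := by
  intro h0
  have h1 : x ^^^ v = 0 := by
    have h2 : 1 ^^^ (1 ^^^ x ^^^ v) = x ^^^ v := by
      have : 1 ^^^ (1 ^^^ x ^^^ v) = (1 ^^^ 1) ^^^ (x ^^^ v) := by ac_rfl
      rw [this]; simp
    rw [← h2, h0]; rfl
  have : x = v := Nat.xor_eq_zero_iff.1 h1
  omega

/-- The statement for all positions of smaller size. -/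
private def IH_tbl {n : ℕ} (k : ℕ) : Prop := ∀ (h : Fin n → ℕ) (I J : Finset (Fin n)),
  ∑ i, h i < k → Disjoint I J → nimSumOn I h = 1 → nimSumOn J h = 1 →
    (PPos (h, true) ↔ nimSum h = 1)

/-- After a move in the block `I` the position is not a P-position. -/
private theorem move_in_tbl {n : ℕ} (k : ℕ) (ih : IH_tbl (n := n) k) (h : Fin n → ℕ)
    (hk : ∑ i, h i = k) (I J : Finset (Fin n)) (hIJ : Disjoint I J) (hI : nimSumOn I h = 1)
    (hJ : nimSumOn J h = 1) (hs : nimSum h = 1) (l : Fin n) (hl : l ∈ I) (v : ℕ)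
    (hv : v < h l) : ¬ PPos (Function.update h l v, true) := by
  have hlJ : l ∉ J := Finset.disjoint_left.1 hIJ hl
  have hI' : nimSumOn I (Function.update h l v) = 1 ^^^ h l ^^^ v := by
    rw [fold_update, if_pos hl, hI]
  have hJ' : nimSumOn J (Function.update h l v) = 1 := by
    rw [fold_update, if_neg hlJ, hJ]
  have hs' : nimSum (Function.update h l v) = 1 ^^^ h l ^^^ v := by
    rw [nimSum_update, hs]
  have hsum := sum_update_lt h l v hv
  have hne := xor_ne_one_tbl hv
  rw [ppos_true]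
  rintro ⟨H1, H2⟩
  have hnz : ∃ i, Function.update h l v i ≠ 0 := by
    obtain ⟨i, -, hi⟩ := exists_ne_tbl J (Function.update h l v) (by rw [hJ']; norm_num)
    exact ⟨i, hi⟩
  have h0 := H1 hnz
  rw [hs'] at h0
  have hlt : 1 < nimSumOn I (Function.update h l v) := by rw [hI']; omega
  obtain ⟨i, hi, hi2⟩ := fold_exists (Function.update h l v) I 1 hlt
  have hiJ : i ∉ J := Finset.disjoint_left.1 hIJ hi
  refine H2 i _ hi2 ?_
  rw [ih _ I J ?_ hIJ ?_ ?_]
  · rw [nimSum_update, hI', hs']
    have : (1 ^^^ h l ^^^ v) ^^^ Function.update h l v i ^^^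
        (1 ^^^ (1 ^^^ h l ^^^ v) ^^^ Function.update h l v i) =
        ((1 ^^^ h l ^^^ v) ^^^ (1 ^^^ h l ^^^ v)) ^^^
        ((Function.update h l v i ^^^ Function.update h l v i) ^^^ 1) := by ac_rfl
    rw [this]; simp
  · have := sum_update_lt (Function.update h l v) i _ hi2
    omega
  · rw [fold_update, if_pos hi, hI']
    have : (1 ^^^ h l ^^^ v) ^^^ Function.update h l v i ^^^
        (1 ^^^ (1 ^^^ h l ^^^ v) ^^^ Function.update h l v i) =
        ((1 ^^^ h l ^^^ v) ^^^ (1 ^^^ h l ^^^ v)) ^^^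
        ((Function.update h l v i ^^^ Function.update h l v i) ^^^ 1) := by ac_rfl
    rw [this]; simp
  · rw [fold_update, if_neg hiJ, hJ']

theorem two_blocks {n : ℕ} (h : Fin n → ℕ) (I J : Finset (Fin n)) (hIJ : Disjoint I J)
    (hI : nimSumOn I h = 1) (hJ : nimSumOn J h = 1) : PPos (h, true) ↔ nimSum h = 1 := by
  induction hk : (∑ i, h i) using Nat.strong_induction_on generalizing h I J with
  | _ k ih =>
    have ih' : IH_tbl (n := n) k := by
      intro h' I' J' hlt hIJ' hI' hJ'
      exact ih _ hlt h' I' J' hIJ' hI' hJ' rfl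
    have hnz : ∃ i, h i ≠ 0 := by
      obtain ⟨i, -, hi⟩ := exists_ne_tbl I h (by rw [hI]; norm_num)
      exact ⟨i, hi⟩
    constructor
    · intro HP
      rw [ppos_true] at HP
      obtain ⟨H1, H2⟩ := HP
      have hne := H1 hnz
      by_contra hne1
      have hR : nimSumOn (Finset.univ \ (I ∪ J)) h = nimSum h := by
        have h1 : nimSum h =
            nimSumOn (Finset.univ \ (I ∪ J)) h ^^^ nimSumOn (I ∪ J) h := by
          rw [← union_tbl _ _ Finset.sdiff_disjoint, Finset.sdiff_union_of_subset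
            (Finset.subset_univ _)]
          rfl
        rw [h1, union_tbl I J hIJ, hI, hJ]
        simp
      have hlt : 1 < nimSumOn (Finset.univ \ (I ∪ J)) h := by rw [hR]; omega
      obtain ⟨i, hi, hi2⟩ := fold_exists h (Finset.univ \ (I ∪ J)) 1 hlt
      rw [hR] at hi2
      have hiIJ : i ∉ I ∪ J := (Finset.mem_sdiff.1 hi).2
      have hiI : i ∉ I := fun h => hiIJ (Finset.mem_union_left _ h)
      have hiJ : i ∉ J := fun h => hiIJ (Finset.mem_union_right _ h)
      refine H2 i _ hi2 ?_
      rw [ih' _ I J ?_ hIJ ?_ ?_]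
      · rw [nimSum_update]
        have : nimSum h ^^^ h i ^^^ (1 ^^^ nimSum h ^^^ h i) =
            (nimSum h ^^^ nimSum h) ^^^ ((h i ^^^ h i) ^^^ 1) := by ac_rfl
        rw [this]; simp
      · rw [← hk]; exact sum_update_lt h i _ hi2
      · rw [fold_update, if_neg hiI, hI]
      · rw [fold_update, if_neg hiJ, hJ]
    · intro hs
      rw [ppos_true]
      refine ⟨fun _ => by omega, ?_⟩
      intro l v hv
      by_cases hlI : l ∈ I
      · exact move_in_tbl k ih' h hk I J hIJ hI hJ hs l hlI v hv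
      · by_cases hlJ : l ∈ J
        · exact move_in_tbl k ih' h hk J I hIJ.symm hJ hI hs l hlJ v hv
        · rw [ih' _ I J ?_ hIJ ?_ ?_]
          · rw [nimSum_update, hs]
            exact xor_ne_one_tbl hv
          · rw [← hk]; exact sum_update_lt h l v hv
          · rw [fold_update, if_neg hlI, hI]
          · rw [fold_update, if_neg hlJ, hJ]

end Pool.Agent.NimPass
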