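import Pool.Agent.NimPass.TwoBlocks

/-! Nim with a single pass: the nim-sum rule holds for almost all tuples of many heaps. -/

namespace Pool.Agent.NimPass

/-- The vector of binary digits over `ZMod 2`. -/
def bitsC (m x : ℕ) : Fin m → ZMod 2 := fun i => if x.testBit i then 1 else 0

/-- The pairing of a mask with a number. -/
def pairC {m : ℕ} (w : Fin m → ZMod 2) (x : ℕ) : ZMod 2 := ∑ j, bitsC m x j * w j

private theorem bits_xor_tbc (m x y : ℕ) : bitsC m (x ^^^ y) = bitsC m x + bitsC m y := by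
  funext i
  simp only [bitsC, Nat.testBit_xor, Pi.add_apply]
  cases x.testBit i <;> cases y.testBit i <;> decide

private theorem bits_zero_tbc (m : ℕ) : bitsC m 0 = 0 := by
  funext i
  simp [bitsC]

private theorem bits_sum_tbc {n : ℕ} (m : ℕ) (h : Fin n → ℕ) (I : Finset (Fin n)) :
    bitsC m (nimSumOn I h) = ∑ i ∈ I, bitsC m (h i) := by
  induction I using Finset.induction_on with
  | empty => simp [nimSumOn_empty, bits_zero_tbc]
  | insert a s ha ih => rw [nimSumOn_insert ha, bits_xor_tbc, ih, Finset.sum_insert ha]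

private theorem bits_inj_tbc {m x y : ℕ} (hx : x < 2 ^ m) (hy : y < 2 ^ m)
    (h : bitsC m x = bitsC m y) : x = y := by
  apply Nat.eq_of_testBit_eq
  intro i
  by_cases hi : i < m
  · have := congrFun h ⟨i, hi⟩
    simp only [bitsC] at this
    by_cases h1 : x.testBit i = true <;> by_cases h2 : y.testBit i = true <;> simp_all
  · have hle : 2 ^ m ≤ 2 ^ i := Nat.pow_le_pow_right (by norm_num) (by omega)
    rw [Nat.testBit_lt_two_pow (lt_of_lt_of_le hx hle),
      Nat.testBit_lt_two_pow (lt_of_lt_of_le hy hle)]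

private theorem nimSumOn_lt_tbc {n m : ℕ} (h : Fin n → ℕ) (hh : ∀ i, h i < 2 ^ m)
    (I : Finset (Fin n)) : nimSumOn I h < 2 ^ m := by
  induction I using Finset.induction_on with
  | empty => simp [nimSumOn_empty]
  | insert a s ha ih => rw [nimSumOn_insert ha]; exact Nat.xor_lt_two_pow (hh a) ih

private theorem zmod_two_tbc (a : ZMod 2) (ha : a ≠ 0) : a = 1 := by
  revert a; decide

private theorem bits_one_tbc {m : ℕ} (hm : 0 < m) : bitsC m 1 = Pi.single ⟨0, hm⟩ 1 := by
  funext i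
  by_cases hi : i = ⟨0, hm⟩
  · subst hi
    simp [bitsC]
  · have h1 : (i : ℕ) ≠ 0 := fun h => hi (Fin.ext h)
    rw [Pi.single_eq_of_ne hi]
    simp only [bitsC]
    rw [if_neg]
    intro h
    rw [Nat.testBit_one_eq_true_iff_self_eq_zero] at h
    exact h1 h

/-- If no subset of `A` has nim-sum 1 then there is an odd mask orthogonal to all of `A`. -/
private theorem mask_tbc {n m : ℕ} (hm : 0 < m) (h : Fin n → ℕ) (hh : ∀ i, h i < 2 ^ m)
    (A : Finset (Fin n)) (hA : ∀ I ⊆ A, nimSumOn I h ≠ 1) :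
    ∃ w : Fin m → ZMod 2, w ⟨0, hm⟩ = 1 ∧ ∀ i ∈ A, pairC w (h i) = 0 := by
  have hnot : bitsC m 1 ∉
      Submodule.span (ZMod 2) ((fun i => bitsC m (h i)) '' (A : Set (Fin n))) := by
    rw [Submodule.mem_span_image_finset_iff_exists_fun']
    rintro ⟨c, hc⟩
    apply hA (A.filter (fun i => c i ≠ 0)) (Finset.filter_subset _ _)
    have h1 : (1 : ℕ) < 2 ^ m := Nat.one_lt_two_pow (by omega)
    apply bits_inj_tbc (nimSumOn_lt_tbc h hh _) h1
    rw [bits_sum_tbc, ← hc, Finset.sum_filter]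
    apply Finset.sum_congr rfl
    intro i _
    by_cases hci : c i = 0
    · simp [hci]
    · rw [if_pos hci, zmod_two_tbc _ hci, one_smul]
  obtain ⟨f, hf1, hf2⟩ := Submodule.exists_le_ker_of_notMem hnot
  have hf : ∀ x : Fin m → ZMod 2, f x = ∑ j, x j * f (Pi.single j 1) := by
    intro x
    conv_lhs => rw [← Finset.univ_sum_single x]
    rw [map_sum]
    apply Finset.sum_congr rfl
    intro j _
    have : (Pi.single j (x j) : Fin m → ZMod 2) = x j • Pi.single j (1 : ZMod 2) := by
      rw [← Pi.single_smul]; simp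
    rw [this, map_smul, smul_eq_mul]
  refine ⟨fun j => f (Pi.single j 1), ?_, ?_⟩
  · apply zmod_two_tbc
    rw [bits_one_tbc hm] at hf1
    exact hf1
  · intro i hi
    have h2 : bitsC m (h i) ∈ LinearMap.ker f := hf2 (Submodule.subset_span ⟨i, hi, rfl⟩)
    rw [LinearMap.mem_ker, hf] at h2
    exact h2


private theorem pair_xor_tbc {m : ℕ} (w : Fin m → ZMod 2) (x y : ℕ) :
    pairC w (x ^^^ y) = pairC w x + pairC w y := by
  simp only [pairC, bits_xor_tbc, Pi.add_apply, add_mul, Finset.sum_add_distrib]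

private theorem pair_one_tbc {m : ℕ} (hm : 0 < m) (w : Fin m → ZMod 2) :
    pairC w 1 = w ⟨0, hm⟩ := by
  simp only [pairC, bits_one_tbc hm]
  rw [Finset.sum_eq_single (⟨0, hm⟩ : Fin m)]
  · simp
  · intro j _ hj
    rw [Pi.single_eq_of_ne hj, zero_mul]
  · intro h; exact absurd (Finset.mem_univ _) h

/-- The numbers below `2 ^ m` orthogonal to a mask. -/
def kerC {m : ℕ} (w : Fin m → ZMod 2) : Finset (Fin (2 ^ m)) :=
  Finset.univ.filter (fun x => pairC w (x : ℕ) = 0)

private theorem ker_card_tbc {m : ℕ} (hm : 0 < m) (w : Fin m → ZMod 2) (hw : w ⟨0, hm⟩ = 1) :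
    (kerC w).card ≤ 2 ^ (m - 1) := by
  have h1 : (1 : ℕ) < 2 ^ m := Nat.one_lt_two_pow (by omega)
  let σ : Fin (2 ^ m) → Fin (2 ^ m) := fun x => ⟨(x : ℕ) ^^^ 1, Nat.xor_lt_two_pow x.2 h1⟩
  have hσ : Function.Injective σ := by
    intro x y hxy
    have h2 : (x : ℕ) ^^^ 1 = (y : ℕ) ^^^ 1 := congrArg Fin.val hxy
    have h3 : ((x : ℕ) ^^^ 1) ^^^ 1 = ((y : ℕ) ^^^ 1) ^^^ 1 := by rw [h2]
    rw [Nat.xor_assoc, Nat.xor_assoc, Nat.xor_self, Nat.xor_zero, Nat.xor_zero] at h3
    exact Fin.ext h3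
  have hsub : (kerC w).image σ ⊆ (kerC w)ᶜ := by
    intro y hy
    rw [Finset.mem_image] at hy
    obtain ⟨x, hx, rfl⟩ := hy
    rw [Finset.mem_compl]
    intro hc
    simp only [kerC, Finset.mem_filter, Finset.mem_univ, true_and] at hx hc
    have h2 : pairC w ((x : ℕ) ^^^ 1) = 0 := hc
    rw [pair_xor_tbc, hx, pair_one_tbc hm, hw] at h2
    exact absurd h2 (by decide)
  have h2 := Finset.card_le_card hsub
  rw [Finset.card_image_of_injective _ hσ, Finset.card_compl, Fintype.card_fin] at h2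
  have h3 : 2 ^ m = 2 * 2 ^ (m - 1) := by
    rw [← pow_succ']; congr 1; omega
  have h4 : (kerC w).card ≤ 2 ^ m := by
    have := Finset.card_le_univ (kerC w)
    rwa [Fintype.card_fin] at this
  omega

/-- The odd masks. -/
def oddC {m : ℕ} (hm : 0 < m) : Finset (Fin m → ZMod 2) :=
  Finset.univ.filter (fun w => w ⟨0, hm⟩ = 1)

private theorem odd_card_tbc {m : ℕ} (hm : 0 < m) : (oddC hm).card ≤ 2 ^ (m - 1) := by
  let σ : (Fin m → ZMod 2) → (Fin m → ZMod 2) := fun w => w + Pi.single ⟨0, hm⟩ 1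
  have hσ : Function.Injective σ := fun x y hxy => add_right_cancel hxy
  have hsub : (oddC hm).image σ ⊆ (oddC hm)ᶜ := by
    intro y hy
    rw [Finset.mem_image] at hy
    obtain ⟨x, hx, rfl⟩ := hy
    rw [Finset.mem_compl]
    intro hc
    simp only [oddC, Finset.mem_filter, Finset.mem_univ, true_and] at hx hc
    simp only [σ, Pi.add_apply, Pi.single_eq_same, hx] at hc
    exact absurd hc (by decide)
  have h2 := Finset.card_le_card hsub
  have hcard : Fintype.card (Fin m → ZMod 2) = 2 ^ m := by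
    rw [Fintype.card_pi]; simp
  rw [Finset.card_image_of_injective _ hσ, Finset.card_compl, hcard] at h2
  have h3 : 2 ^ m = 2 * 2 ^ (m - 1) := by
    rw [← pow_succ']; congr 1; omega
  have h4 : (oddC hm).card ≤ 2 ^ m := by
    have := Finset.card_le_univ (oddC hm)
    rwa [hcard] at this
  omega

/-- The tuples killed by the mask `w` before the place `T` and by the mask `w'` after it. -/
def boxC {n m : ℕ} (T : Fin n) (w w' : Fin m → ZMod 2) : Finset (Fin n → Fin (2 ^ m)) :=
  Fintype.piFinset (fun i => if i < T then kerC w else if T < i then kerC w' else Finset.univ)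

private theorem box_card_tbc {n m : ℕ} (hm : 0 < m) (T : Fin n) (w w' : Fin m → ZMod 2)
    (hw : w ⟨0, hm⟩ = 1) (hw' : w' ⟨0, hm⟩ = 1) :
    (boxC T w w').card ≤ (2 ^ (m - 1)) ^ (n - 1) * 2 ^ m := by
  rw [boxC, Fintype.card_piFinset, ← Finset.mul_prod_erase Finset.univ _ (Finset.mem_univ T)]
  rw [if_neg (lt_irrefl T), if_neg (lt_irrefl T), Finset.card_univ, Fintype.card_fin, mul_comm]
  apply Nat.mul_le_mul_right
  calc ∏ i ∈ Finset.univ.erase T,
        (if i < T then kerC w else if T < i then kerC w' else Finset.univ).card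
      ≤ ∏ _i ∈ Finset.univ.erase T, 2 ^ (m - 1) := by
        apply Finset.prod_le_prod'
        intro i hi
        have hne : i ≠ T := Finset.ne_of_mem_erase hi
        rcases lt_or_gt_of_ne hne with h1 | h1
        · rw [if_pos h1]; exact ker_card_tbc hm w hw
        · rw [if_neg (not_lt.2 h1.le), if_pos h1]; exact ker_card_tbc hm w' hw'
    _ = (2 ^ (m - 1)) ^ (n - 1) := by
        rw [Finset.prod_const, Finset.card_erase_of_mem (Finset.mem_univ T), Finset.card_univ,
          Fintype.card_fin]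

/-- A tuple violating the nim-sum rule lies in one of the boxes. -/
private theorem mem_box_tbc {n m : ℕ} (hm : 0 < m) (hn : 0 < n) (h : Fin n → Fin (2 ^ m))
    (hbad : ¬ (PPos (fun i => (h i : ℕ), true) ↔ nimSum (fun i => (h i : ℕ)) = 1)) :
    ∃ (T : Fin n) (w w' : Fin m → ZMod 2), w ⟨0, hm⟩ = 1 ∧ w' ⟨0, hm⟩ = 1 ∧
      h ∈ boxC T w w' := by
  classical
  let g : Fin n → ℕ := fun i => (h i : ℕ)
  have hg : ∀ i, g i < 2 ^ m := fun i => (h i).2
  let Q : ℕ → Prop := fun t =>
    ∃ I ⊆ (Finset.univ.filter (fun i : Fin n => (i : ℕ) < t)), nimSumOn I g = 1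
  have hT : ∃ T : Fin n, (∀ I ⊆ Finset.univ.filter (fun i => i < T), nimSumOn I g ≠ 1) ∧
      (∀ I ⊆ Finset.univ.filter (fun i => T < i), nimSumOn I g ≠ 1) := by
    by_cases hex : ∃ t, Q t
    · have hQ := Nat.find_spec hex
      have hmin : ∀ s < Nat.find hex, ¬ Q s := fun s hs => Nat.find_min hex hs
      set t := Nat.find hex with ht
      have ht0 : t ≠ 0 := by
        intro h0
        obtain ⟨I, hI, hI1⟩ := hQ
        rw [h0] at hI
        have : I = ∅ := by
          apply Finset.subset_empty.1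
          intro i hi
          have := hI hi
          simp at this
        rw [this, nimSumOn_empty] at hI1
        omega
      have htn : t ≤ n := by
        by_contra hlt
        apply hmin n (by omega)
        obtain ⟨I, hI, hI1⟩ := hQ
        refine ⟨I, ?_, hI1⟩
        intro i _
        simp
      refine ⟨⟨t - 1, by omega⟩, ?_, ?_⟩
      · intro I hI hI1
        apply hmin (t - 1) (by omega)
        refine ⟨I, ?_, hI1⟩
        intro i hi
        have := hI hi
        rw [Finset.mem_filter] at this ⊢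
        exact ⟨Finset.mem_univ i, Fin.lt_def.1 this.2⟩
      · intro J hJ hJ1
        obtain ⟨I, hI, hI1⟩ := hQ
        apply hbad
        apply two_blocks g I J _ hI1 hJ1
        rw [Finset.disjoint_left]
        intro i hi hj
        have h1 := hI hi
        have h2 := hJ hj
        rw [Finset.mem_filter] at h1 h2
        have h3 : t - 1 < (i : ℕ) := Fin.lt_def.1 h2.2
        omega
    · refine ⟨⟨n - 1, by omega⟩, ?_, ?_⟩
      · intro I hI hI1
        apply hex
        refine ⟨n, I, ?_, hI1⟩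
        intro i _
        simp
      · intro J hJ hJ1
        have : J = ∅ := by
          apply Finset.subset_empty.1
          intro i hi
          have h2 := hJ hi
          rw [Finset.mem_filter] at h2
          have h3 : n - 1 < (i : ℕ) := Fin.lt_def.1 h2.2
          have := i.2
          omega
        rw [this, nimSumOn_empty] at hJ1
        omega
  obtain ⟨T, hT1, hT2⟩ := hT
  obtain ⟨w, hw, hw2⟩ := mask_tbc hm g hg _ hT1
  obtain ⟨w', hw', hw2'⟩ := mask_tbc hm g hg _ hT2
  refine ⟨T, w, w', hw, hw', ?_⟩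
  rw [boxC, Fintype.mem_piFinset]
  intro i
  by_cases h1 : i < T
  · rw [if_pos h1, kerC, Finset.mem_filter]
    exact ⟨Finset.mem_univ _, hw2 i (by rw [Finset.mem_filter]; exact ⟨Finset.mem_univ _, h1⟩)⟩
  · rw [if_neg h1]
    by_cases h2 : T < i
    · rw [if_pos h2, kerC, Finset.mem_filter]
      exact ⟨Finset.mem_univ _,
        hw2' i (by rw [Finset.mem_filter]; exact ⟨Finset.mem_univ _, h2⟩)⟩
    · rw [if_neg h2]; exact Finset.mem_univ _

/-- For `m, n ≥ 1` all but at most `n * 2 ^ (2 m - 1 - n) * 2 ^ (m n)` of the `2 ^ (m n)` tuples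
of `n` heaps of size `< 2 ^ m` satisfy the nim-sum rule. -/
theorem count_bad (m n : ℕ) (hm : 1 ≤ m) (hn : 1 ≤ n) :
    Set.ncard {h : Fin n → Fin (2 ^ m) |
      ¬ (PPos (fun i => (h i : ℕ), true) ↔ nimSum (fun i => (h i : ℕ)) = 1)} * 2 ^ (n + 1) ≤
    n * 2 ^ (2 * m) * 2 ^ (m * n) := by
  classical
  have hm' : 0 < m := hm
  let B : Finset (Fin n → Fin (2 ^ m)) :=
    ((Finset.univ : Finset (Fin n)) ×ˢ (oddC hm' ×ˢ oddC hm')).biUnion
      (fun p => boxC p.1 p.2.1 p.2.2)
  have hsub : {h : Fin n → Fin (2 ^ m) |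
      ¬ (PPos (fun i => (h i : ℕ), true) ↔ nimSum (fun i => (h i : ℕ)) = 1)} ⊆ (B : Set _) := by
    intro h hbad
    obtain ⟨T, w, w', hw, hw', hmem⟩ := mem_box_tbc hm' hn h hbad
    rw [Finset.mem_coe, Finset.mem_biUnion]
    refine ⟨(T, w, w'), ?_, hmem⟩
    simp [oddC, hw, hw']
  have h1 := Set.ncard_le_ncard hsub (Finset.finite_toSet B)
  rw [Set.ncard_coe_finset] at h1
  have h2 : B.card ≤ (n * (2 ^ (m - 1) * 2 ^ (m - 1))) * ((2 ^ (m - 1)) ^ (n - 1) * 2 ^ m) := by
    calc B.card ≤ ∑ p ∈ (Finset.univ : Finset (Fin n)) ×ˢ (oddC hm' ×ˢ oddC hm'),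
          (boxC p.1 p.2.1 p.2.2).card := Finset.card_biUnion_le
      _ ≤ ∑ _p ∈ (Finset.univ : Finset (Fin n)) ×ˢ (oddC hm' ×ˢ oddC hm'),
          (2 ^ (m - 1)) ^ (n - 1) * 2 ^ m := by
          apply Finset.sum_le_sum
          rintro ⟨T, w, w'⟩ hp
          simp only [oddC, Finset.mem_product, Finset.mem_univ, true_and,
            Finset.mem_filter] at hp
          exact box_card_tbc hm' T w w' hp.1 hp.2
      _ = (n * ((oddC hm').card * (oddC hm').card)) * ((2 ^ (m - 1)) ^ (n - 1) * 2 ^ m) := by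
          rw [Finset.sum_const, Finset.card_product, Finset.card_product, Finset.card_univ,
            Fintype.card_fin, smul_eq_mul]
      _ ≤ _ := by
          apply Nat.mul_le_mul_right
          apply Nat.mul_le_mul_left
          exact Nat.mul_le_mul (odd_card_tbc hm') (odd_card_tbc hm')
  calc _ ≤ B.card * 2 ^ (n + 1) := Nat.mul_le_mul_right _ h1
    _ ≤ (n * (2 ^ (m - 1) * 2 ^ (m - 1))) * ((2 ^ (m - 1)) ^ (n - 1) * 2 ^ m) * 2 ^ (n + 1) :=
        Nat.mul_le_mul_right _ h2
    _ = n * 2 ^ (2 * m) * 2 ^ (m * n) := by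
        obtain ⟨k, rfl⟩ : ∃ k, m = k + 1 := ⟨m - 1, by omega⟩
        obtain ⟨l, rfl⟩ : ∃ l, n = l + 1 := ⟨n - 1, by omega⟩
        simp only [Nat.add_sub_cancel]
        ring

end Pool.Agent.NimPass
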