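import Pool.Agent.NimPass.Basic

/-! Two heaps of size one force the nim-sum rule. -/

namespace Pool.Agent.NimPass

theorem two_ones {n : ℕ} (h : Fin n → ℕ) (i j : Fin n) (hij : i ≠ j) (hi : h i = 1)
    (hj : h j = 1) : PPos (h, true) ↔ nimSum h = 1 := by
  induction hk : (∑ i, h i) using Nat.strong_induction_on generalizing h with
  | _ k ih =>
    have step : ∀ l v, v < h l → l ≠ i → l ≠ j →
        (PPos (Function.update h l v, true) ↔ nimSum (Function.update h l v) = 1) := by
      intro l v hv h1 h2
      exact ih _ (by rw [← hk]; exact sum_update_lt h l v hv) _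
        (by rw [Function.update_of_ne (Ne.symm h1)]; exact hi)
        (by rw [Function.update_of_ne (Ne.symm h2)]; exact hj) rfl
    rw [ppos_true]
    constructor
    · rintro ⟨H1, H2⟩
      have hne := H1 ⟨i, by omega⟩
      by_contra hne1
      have hlt : 1 < nimSum h := by omega
      obtain ⟨l, v, hv, hve, hs⟩ := nimSum_move h 1 hlt
      have key : h l ≠ 1 := by
        intro hl
        rw [hl] at hve hv
        have : v = nimSum h := by
          rw [hve]
          have : 1 ^^^ nimSum h ^^^ 1 = (1 ^^^ 1) ^^^ nimSum h := by ac_rfl
          rw [this]; simp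
        omega
      have hli : l ≠ i := fun h => key (by rw [h]; exact hi)
      have hlj : l ≠ j := fun h => key (by rw [h]; exact hj)
      exact H2 l v hv ((step l v hv hli hlj).2 hs)
    · intro hs
      refine ⟨fun _ => by omega, ?_⟩
      intro l v hv
      by_cases hli : l = i
      · subst hli
        rw [hi] at hv
        have hv0 : v = 0 := by omega
        subst hv0
        rw [ppos_true]
        rintro ⟨H1, -⟩
        apply H1 ⟨j, by rw [Function.update_of_ne (Ne.symm hij), hj]; norm_num⟩
        rw [nimSum_update, hs, hi]; rfl
      · by_cases hlj : l = j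
        · subst hlj
          rw [hj] at hv
          have hv0 : v = 0 := by omega
          subst hv0
          rw [ppos_true]
          rintro ⟨H1, -⟩
          apply H1 ⟨i, by rw [Function.update_of_ne hij, hi]; norm_num⟩
          rw [nimSum_update, hs, hj]; rfl
        · rw [step l v hv hli hlj, nimSum_update, hs]
          intro h0
          have h1 : h l ^^^ v = 0 := by
            have h2 : 1 ^^^ (1 ^^^ h l ^^^ v) = h l ^^^ v := by
              have : 1 ^^^ (1 ^^^ h l ^^^ v) = (1 ^^^ 1) ^^^ (h l ^^^ v) := by ac_rfl
              rw [this]; simp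
            rw [← h2, h0]; rfl
          have : h l = v := Nat.xor_eq_zero_iff.1 h1
          omega

end Pool.Agent.NimPass
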